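import Pool.Agent.Lib.MP_9f2731_nt.PL.Ap.Spec
import Pool.Agent.Lib.MP_9f2731_nt.GP.Rel.Upd
import Pool.Agent.Lib.MP_9f2731_nt.GP.Asm.Lf2

/-!
MP_9f2731_nt, PL/Ap, module Cwp: coincidences of the wide forms.
-/

namespace Pool.Agent.Lib.MP_9f2731_nt.PL.Ap

open Finset
open Pool.Agent.Lib.MP_9f2731_nt.GP
open Pool.Agent.Lib.MP_9f2731_nt.GP.Rel
open Pool.Agent.Lib.MP_9f2731_nt.QL
open Pool.Agent.Lib.MP_9f2731_nt.QL.Aw
open Pool.Agent.Lib.MP_9f2731_nt.PL
open Pool.Agent.Lib.MP_9f2731_nt.GP.Asm (eb)

namespace CwpAux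

private theorem mono {α : Type} [Fintype α] (f g : α → ℝ) (h : ∀ x, f x ≤ g x) :
    av f ≤ av g := by
  unfold av
  exact div_le_div_of_nonneg_right (sum_le_sum fun x _ => h x) (Nat.cast_nonneg _)

private theorem le {α : Type} [Fintype α] [Nonempty α] (f : α → ℝ) (ρ : ℝ) (h : ∀ x, f x ≤ ρ) :
    av f ≤ ρ :=
  (mono f (fun _ => ρ) h).trans (le_of_eq (GP.Asm.lf2_av_const ρ))

/-- mean over one entry -/
private theorem core {G : Type} [DecidableEq G] {E : Type} [Fintype E] [Nonempty E] (vl : E → G)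
    (ρ : ℝ) (hv : ∀ g : G, av (fun ξ : E => if vl ξ = g then (1 : ℝ) else 0) ≤ ρ)
    {ι : Type} [Fintype ι] [DecidableEq ι]
    {K : ℕ} (L : (ι → Fin K → E) → G) (R : (ι → Fin K → E) → G) (a : ι)
    (t0 : Fin K) (hR : ∀ x v, R (Function.update x a v) = R x)
    (hL : ∀ (x : ι → Fin K → E) (v : Fin K → E) (u u' : E),
      L (Function.update x a (Function.update v t0 u)) =
        L (Function.update x a (Function.update v t0 u')) → vl u = vl u') :
    av (fun x => if L x = R x then (1 : ℝ) else 0) ≤ ρ := by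
  rw [← pUpd ι (Fin K → E) a]
  refine le _ _ fun x => ?_
  rw [← pUpd (Fin K) E t0]
  refine le _ _ fun v => ?_
  by_cases h : ∃ u0, L (Function.update x a (Function.update v t0 u0)) = R x
  · obtain ⟨u0, hu0⟩ := h
    refine (mono _ _ fun u => ?_).trans (hv (vl u0))
    rw [hR]
    by_cases hu : L (Function.update x a (Function.update v t0 u)) = R x
    · rw [if_pos hu, if_pos (hL x v u u0 (hu.trans hu0.symm))]
    · rw [if_neg hu]
      split_ifs <;> norm_num
  · obtain ⟨e⟩ := ‹Nonempty E›
    refine (mono _ _ fun u => ?_).trans (hv (vl e))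
    rw [hR, if_neg (fun hu => h ⟨u, hu⟩)]
    split_ifs <;> norm_num

private theorem inc_upd {G : Type} [AddCommGroup G] {E : Type} (vl : E → G) {K : ℕ} (n : ℕ)
    (hn : 1 ≤ n) (v : Fin K → E) (t0 : Fin K) (ht0 : (t0 : ℕ) = 0) (u u' : E) :
    incE vl n (Function.update v t0 u) - incE vl n (Function.update v t0 u') =
      vl u - vl u' := by
  unfold incE
  rw [← Finset.sum_sub_distrib, Finset.sum_eq_single t0]
  · rw [Function.update_self, Function.update_self, if_pos (by omega), if_pos (by omega)]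
  · intro t _ ht
    rw [Function.update_of_ne ht, Function.update_of_ne ht, sub_self]
  · intro h
    exact absurd (mem_univ _) h

private theorem mu_pos (k m : ℕ) (i : Fin k) : 1 ≤ mu k m i := by
  unfold mu
  split_ifs <;> omega

/-- difference of two values of a form whose arguments differ at the vertex i -/
private theorem fr_diff {G : Type} [AddCommGroup G] {E : Type} (vl : E → G) {K k : ℕ} (m : ℕ)
    (j i : Fin k) (x y : Fin k → Fin K → E) (h : ∀ l, l ≠ i → x l = y l) :
    frE vl m j x - frE vl m j y = (((i : ℕ) : ℤ) - ((j : ℕ) : ℤ)) •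
      (incE vl (mu k m i) (x i) - incE vl (mu k m i) (y i)) := by
  unfold frE
  rw [← Finset.sum_sub_distrib, Finset.sum_eq_single i]
  · rw [smul_sub]
  · intro l _ hl
    rw [h l hl, sub_self]
  · intro h
    exact absurd (mem_univ _) h

/-- a form with a changed variable -/
private theorem inj {G : Type} [AddCommGroup G] {E : Type} (vl : E → G) {k : ℕ}
    (m K : ℕ) (hinj : ∀ n : ℕ, 1 ≤ n → n < k → Function.Injective (fun x : G => n • x))
    (t0 : Fin K) (ht0 : (t0 : ℕ) = 0) (j i : Fin k) (hij : i ≠ j) (σ : Fin k → Bool)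
    (x : Fin k × Bool → Fin K → E) (v : Fin K → E) (u u' : E)
    (h : frE vl m j (pk σ (Function.update x (i, σ i) (Function.update v t0 u))) =
      frE vl m j (pk σ (Function.update x (i, σ i) (Function.update v t0 u')))) :
    vl u = vl u' := by
  have h1 := fr_diff vl m j i (pk σ (Function.update x (i, σ i) (Function.update v t0 u)))
    (pk σ (Function.update x (i, σ i) (Function.update v t0 u'))) (by
      intro l hl
      unfold pk
      have hne : (l, σ l) ≠ (i, σ i) := fun e => hl (congrArg Prod.fst e)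
      rw [Function.update_of_ne hne, Function.update_of_ne hne])
  rw [h, sub_self] at h1
  have h2 : pk σ (Function.update x (i, σ i) (Function.update v t0 u)) i = Function.update v t0 u := by
    unfold pk
    rw [Function.update_self]
  have h3 : pk σ (Function.update x (i, σ i) (Function.update v t0 u')) i =
      Function.update v t0 u' := by
    unfold pk
    rw [Function.update_self]
  rw [h2, h3, inc_upd vl _ (mu_pos k m i) v t0 ht0] at h1
  have h4 : vl u - vl u' = 0 := by
    have hne : ((i : ℕ) : ℤ) - ((j : ℕ) : ℤ) ≠ 0 := by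
      intro e
      exact hij (Fin.ext (by omega))
    obtain ⟨n, hn⟩ : ∃ n : ℕ, n = (((i : ℕ) : ℤ) - ((j : ℕ) : ℤ)).natAbs := ⟨_, rfl⟩
    have hn1 : 1 ≤ n := by omega
    have hnk : n < k := by
      have := i.isLt
      have := j.isLt
      omega
    have h5 : (n : ℤ) • (vl u - vl u') = 0 := by
      rcases Int.natAbs_eq (((i : ℕ) : ℤ) - ((j : ℕ) : ℤ)) with he | he
      · rw [hn, ← he]
        exact h1.symm
      · have h6 : ((n : ℕ) : ℤ) = -(((i : ℕ) : ℤ) - ((j : ℕ) : ℤ)) := by omega
        rw [h6, neg_smul, ← h1, neg_zero]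
    rw [natCast_zsmul] at h5
    exact hinj n hn1 hnk (by simpa using h5)
  exact sub_eq_zero.1 h4

/-- a form does not depend on other variables -/
private theorem ind {G : Type} [AddCommGroup G] {E : Type} (vl : E → G) {k K : ℕ} (m : ℕ)
    (j i : Fin k) (c : Bool) (σ : Fin k → Bool) (h : i = j ∨ σ i ≠ c)
    (x : Fin k × Bool → Fin K → E) (v : Fin K → E) :
    frE vl m j (pk σ (Function.update x (i, c) v)) = frE vl m j (pk σ x) := by
  unfold frE
  refine Finset.sum_congr rfl fun l _ => ?_
  by_cases hl : l = i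
  · subst hl
    rcases h with h | h
    · rw [h, sub_self, zero_smul, zero_smul]
    · unfold pk
      have hne : (l, σ l) ≠ (l, c) := fun e => h (congrArg Prod.snd e)
      rw [Function.update_of_ne hne]
  · unfold pk
    have hne : (l, σ l) ≠ (i, c) := fun e => hl (congrArg Prod.fst e)
    rw [Function.update_of_ne hne]

private theorem main {k : ℕ} {G : Type} [AddCommGroup G] [DecidableEq G] {E : Type}
    [Fintype E] [Nonempty E] (vl : E → G) (ρ : ℝ)
    (hv : ∀ g : G, av (fun ξ : E => if vl ξ = g then (1 : ℝ) else 0) ≤ ρ) (m K : ℕ) (hk : 2 ≤ k)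
    (hK : 1 ≤ K) (hinj : ∀ n : ℕ, 1 ≤ n → n < k → Function.Injective (fun x : G => n • x))
    (p p' : Fin k × (Fin k → Bool)) (hp : p.2 p.1 = false) (hp' : p'.2 p'.1 = false) :
    (p ≠ p' → av (fun x : Fin k × Bool → Fin K → E =>
      if frE vl m p.1 (pk p.2 x) = frE vl m p'.1 (pk p'.2 x) then (1 : ℝ) else 0) ≤ ρ) ∧
    av (fun y : (Fin k × Bool → Fin K → E) × (Fin k × Bool → Fin K → E) =>
      if frE vl m p.1 (pk p.2 y.1) = frE vl m p'.1 (pk p'.2 y.2) then (1 : ℝ) else 0) ≤ ρ := by
  obtain ⟨j, σ⟩ := p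
  obtain ⟨j', σ'⟩ := p'
  simp only at hp hp' ⊢
  let t0 : Fin K := ⟨0, hK⟩
  have ht0 : (t0 : ℕ) = 0 := rfl
  constructor
  · intro hne
    by_cases hj : j = j'
    · subst hj
      obtain ⟨i, hi⟩ : ∃ i, σ i ≠ σ' i := by
        by_contra hcon
        push Not at hcon
        exact hne (by rw [funext hcon])
      have hij : i ≠ j := by
        rintro rfl
        exact hi (hp.trans hp'.symm)
      exact core vl ρ hv (fun x => frE vl m j (pk σ x)) (fun x => frE vl m j (pk σ' x)) (i, σ i) t0
        (fun x v => ind vl m j i (σ i) σ' (Or.inr (Ne.symm hi)) x v)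
        (fun x v u u' h => inj vl m K hinj t0 ht0 j i hij σ x v u u' h)
    · have h1 := core vl ρ hv (fun x : Fin k × Bool → Fin K → E => frE vl m j' (pk σ' x))
        (fun x => frE vl m j (pk σ x)) (j, σ' j) t0
        (fun x v => ind vl m j j (σ' j) σ (Or.inl rfl) x v)
        (fun x v u u' h => inj vl m K hinj t0 ht0 j' j hj σ' x v u u' h)
      refine le_trans (le_of_eq ?_) h1
      congr 1
      funext x
      simp only [eq_comm]
  · have hnt : Nontrivial (Fin k) := Fin.nontrivial_iff_two_le.2 hk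
    obtain ⟨i, hi⟩ := exists_ne j'
    rw [GP.Asm.lf2_av_prod (fun y z : Fin k × Bool → Fin K → E =>
      if frE vl m j (pk σ y) = frE vl m j' (pk σ' z) then (1 : ℝ) else 0)]
    refine le _ _ fun y => ?_
    have h1 := core vl ρ hv (fun x : Fin k × Bool → Fin K → E => frE vl m j' (pk σ' x))
        (fun _ => frE vl m j (pk σ y)) (i, σ' i) t0 (fun x v => rfl)
        (fun x v u u' h => inj vl m K hinj t0 ht0 j' i hi σ' x v u u' h)
    refine le_trans (le_of_eq ?_) h1
    congr 1
    funext x
    simp only [eq_comm]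

end CwpAux

open CwpAux

theorem pCwp (h1 : VwcStmt) : CwpStmt := by
  intro k G _ _ _ Y m K M hk hY hK hM hinj p p' hp hp'
  have : Nonempty Y := hY.to_subtype
  exact main (fun ξ : Wd k M Y => vw k.factorial ξ) (1 / Y.card)
    (h1 k M k.factorial G Y (by omega) hM hY (hinj _ (Nat.factorial_pos k) le_rfl)) m K hk hK
    (fun n hn hnk => hinj n hn (hnk.le.trans (Nat.self_le_factorial k))) p p' hp hp'

end Pool.Agent.Lib.MP_9f2731_nt.PL.Ap
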