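import Pool.Agent.Lib.MP_9f2731_nt.PL.Ap.Spec
import Pool.Agent.Lib.MP_9f2731_nt.GP.Rel.Upd

/-!
MP_9f2731_nt, PL/Ap/Dgp: many differences (helper66, after helper9's docstring).
-/

namespace Pool.Agent.Lib.MP_9f2731_nt.PL.Ap

open Finset
open Pool.Agent.Lib.MP_9f2731_nt.GP Pool.Agent.Lib.MP_9f2731_nt.GP.Rel
open Pool.Agent.Lib.MP_9f2731_nt.QL Pool.Agent.Lib.MP_9f2731_nt.QL.Aw
open Pool.Agent.Lib.MP_9f2731_nt.PL
open Pool.Agent.Lib.MP_9f2731_nt.GP.Asm (eb)

namespace DgpAux

theorem av_le {α : Type} [Fintype α] [Nonempty α] {h : α → ℝ} {ρ : ℝ} (hh : ∀ a, h a ≤ ρ) :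
    av h ≤ ρ := by
  unfold av
  have hc : (0 : ℝ) < Fintype.card α := by
    have := Fintype.card_pos (α := α)
    exact_mod_cast this
  rw [div_le_iff₀ hc]
  calc ∑ a, h a ≤ ∑ _a : α, ρ := Finset.sum_le_sum fun a _ => hh a
    _ = ρ * Fintype.card α := by rw [Finset.sum_const, Finset.card_univ, nsmul_eq_mul, mul_comm]

variable {G : Type} [AddCommGroup G] {E : Type}

/-- the difference -/
def dif (vl : E → G) (k m : ℕ) {K : ℕ} (x : Fin k → Fin K → E) : G :=
  ∑ i, incE vl (mu k m i) (x i)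

open Classical in
/-- the difference is equidistributed -/
theorem dif_av [Fintype E] [Nonempty E] (vl : E → G) (k m K : ℕ) (ρ : ℝ) (hk : 1 ≤ k) (hK : 1 ≤ K)
    (hρ : ∀ g : G, av (fun ξ : E => if vl ξ = g then (1 : ℝ) else 0) ≤ ρ) (g : G) :
    av (fun x : Fin k → Fin K → E => if dif vl k m x = g then (1 : ℝ) else 0) ≤ ρ := by
  obtain ⟨i0, hi0⟩ : ∃ i0 : Fin k, i0 = ⟨0, hk⟩ := ⟨_, rfl⟩
  obtain ⟨t0, ht0⟩ : ∃ t0 : Fin K, t0 = ⟨0, hK⟩ := ⟨_, rfl⟩
  have : Nonempty (Fin K → E) := inferInstance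
  have h1 := pUpd (Fin k) (Fin K → E) i0
    (fun x : Fin k → Fin K → E => if dif vl k m x = g then (1 : ℝ) else 0)
  rw [← h1]
  refine av_le fun x => ?_
  have h2 := pUpd (Fin K) E t0
    (fun v : Fin K → E => if dif vl k m (Function.update x i0 v) = g then (1 : ℝ) else 0)
  rw [← h2]
  refine av_le fun v => ?_
  obtain ⟨rest, hrest⟩ : ∃ rest : G, ∀ ξ : E,
      dif vl k m (Function.update x i0 (Function.update v t0 ξ)) = vl ξ + rest := by
    refine ⟨(∑ t ∈ univ.erase t0, if (t : ℕ) < mu k m i0 then vl (v t) else 0) +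
      ∑ i ∈ univ.erase i0, incE vl (mu k m i) (x i), fun ξ => ?_⟩
    unfold dif
    rw [← Finset.add_sum_erase univ _ (Finset.mem_univ i0), ← add_assoc]
    congr 1
    · rw [Function.update_self]
      unfold incE
      rw [← Finset.add_sum_erase univ _ (Finset.mem_univ t0)]
      congr 1
      · rw [Function.update_self, if_pos]
        unfold mu
        rw [ht0]
        split_ifs <;> simp
      · refine Finset.sum_congr rfl fun t ht => ?_
        rw [Function.update_of_ne (Finset.ne_of_mem_erase ht)]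
    · refine Finset.sum_congr rfl fun i hi => ?_
      rw [Function.update_of_ne (Finset.ne_of_mem_erase hi)]
  have h3 : (fun ξ : E => if dif vl k m (Function.update x i0 (Function.update v t0 ξ)) = g
      then (1 : ℝ) else 0) = fun ξ : E => if vl ξ = g - rest then (1 : ℝ) else 0 := by
    funext ξ
    rw [hrest]
    by_cases h : vl ξ = g - rest
    · rw [if_pos h, if_pos (by rw [h, sub_add_cancel])]
    · rw [if_neg h, if_neg (fun h' => h (eq_sub_of_add_eq h'))]
  rw [h3]
  exact hρ _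

/-- the forms in terms of the difference -/
theorem frE_eq (vl : E → G) (k m K : ℕ) (hk : 1 ≤ k) (x : Fin k → Fin K → E) (j : Fin k) :
    frE vl m j x = frE vl m (⟨k - 1, by omega⟩ : Fin k) x + (k - 1 - (j : ℕ)) • dif vl k m x := by
  unfold frE dif
  rw [Finset.smul_sum, ← Finset.sum_add_distrib]
  refine Finset.sum_congr rfl fun i _ => ?_
  rw [← natCast_zsmul, ← add_smul]
  congr 1
  have := j.2
  show ((i : ℕ) : ℤ) - ((j : ℕ) : ℤ) = ((i : ℕ) : ℤ) - ((k - 1 : ℕ) : ℤ) + ((k - 1 - (j : ℕ) : ℕ) : ℤ)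
  omega

/-- change of the base point -/
theorem sum_shift [Fintype G] (vl : E → G) (f : G → ℝ) (k m K : ℕ) (hk : 1 ≤ k)
    (x : Fin k → Fin K → E) :
    ∑ e : G, ∏ j : Fin k, f (e + frE vl m j x) =
      ∑ e : G, ∏ i ∈ range k, f (e + i • dif vl k m x) := by
  have h1 : ∀ e : G, ∏ j : Fin k, f (e + frE vl m j x) =
      ∏ i ∈ range k, f ((e + frE vl m (⟨k - 1, by omega⟩ : Fin k) x) + i • dif vl k m x) := by
    intro e
    rw [Finset.prod_range, ← Equiv.prod_comp Fin.revPerm]
    refine Finset.prod_congr rfl fun j _ => ?_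
    rw [frE_eq vl k m K hk, Fin.revPerm_apply, Fin.val_rev]
    congr 1
    rw [← add_assoc]
    congr 2
    have := j.2
    omega
  rw [Finset.sum_congr rfl fun e _ => h1 e]
  exact Equiv.sum_comp (Equiv.addRight (frE vl m (⟨k - 1, by omega⟩ : Fin k) x))
    (fun e : G => ∏ i ∈ range k, f (e + i • dif vl k m x))

end DgpAux

open Classical in
open DgpAux in
theorem pDgp : DgpStmt := by
  intro k m K R G _ _ E _ _ vl f F c ρ hk hK hf hρ hc hav
  by_contra hcon
  push Not at hcon
  have hF : 0 ≤ F := (hf 0).1.trans (hf 0).2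
  have hρ0 : 0 ≤ ρ := by
    refine le_trans ?_ (hρ 0)
    unfold av
    refine div_nonneg (Finset.sum_nonneg fun ξ _ => ?_) (Nat.cast_nonneg _)
    split_ifs <;> norm_num
  have hXc : (0 : ℝ) < Fintype.card (Fin k → Fin K → E) := by
    have := Fintype.card_pos (α := Fin k → Fin K → E)
    exact_mod_cast this
  have hGc : (0 : ℝ) < Fintype.card G := by
    have := Fintype.card_pos (α := G)
    exact_mod_cast this
  have hcount : ∀ g : G, ∑ x : Fin k → Fin K → E, (if dif vl k m x = g then (1 : ℝ) else 0) ≤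
      ρ * Fintype.card (Fin k → Fin K → E) := by
    intro g
    have h1 := dif_av vl k m K ρ hk hK hρ g
    unfold av at h1
    rwa [div_le_iff₀ hXc] at h1
  have hbound : ∀ e : G, ∑ x : Fin k → Fin K → E, ∏ i ∈ range k, f (e + i • dif vl k m x) ≤
      F ^ k * (R * ρ) * Fintype.card (Fin k → Fin K → E) := by
    intro e
    have hR := hcon e
    obtain ⟨De, hDe⟩ : ∃ De : Finset G, De = (univ.filter (fun d : G =>
        (∃ x : Fin k → Fin K → E, d = ∑ i, incE vl (mu k m i) (x i)) ∧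
        ∀ i : ℕ, i < k → f (e + i • d) ≠ 0)) := ⟨_, rfl⟩
    rw [← hDe] at hR
    have h1 : ∀ x : Fin k → Fin K → E, ∏ i ∈ range k, f (e + i • dif vl k m x) ≤
        F ^ k * ∑ g ∈ De, (if dif vl k m x = g then (1 : ℝ) else 0) := by
      intro x
      rw [Finset.sum_ite_eq]
      by_cases h : dif vl k m x ∈ De
      · rw [if_pos h, mul_one]
        calc ∏ i ∈ range k, f (e + i • dif vl k m x) ≤ ∏ _i ∈ range k, F :=
              Finset.prod_le_prod (fun i _ => (hf _).1) (fun i _ => (hf _).2)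
          _ = F ^ k := by rw [Finset.prod_const, Finset.card_range]
      · rw [if_neg h, mul_zero]
        rw [hDe, Finset.mem_filter] at h
        push Not at h
        obtain ⟨i, hi, hi2⟩ := h (Finset.mem_univ _) ⟨x, rfl⟩
        rw [Finset.prod_eq_zero (Finset.mem_range.2 hi) hi2]
    refine (Finset.sum_le_sum fun x _ => h1 x).trans ?_
    rw [← Finset.mul_sum, Finset.sum_comm, mul_assoc]
    refine mul_le_mul_of_nonneg_left ?_ (pow_nonneg hF k)
    refine (Finset.sum_le_sum fun g _ => hcount g).trans ?_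
    rw [Finset.sum_const, nsmul_eq_mul, mul_assoc]
    refine mul_le_mul_of_nonneg_right ?_ (mul_nonneg hρ0 hXc.le)
    exact_mod_cast hR
  have htot : ∑ e : G, ∑ x : Fin k → Fin K → E, ∏ j : Fin k, f (e + frE vl m j x) ≤
      F ^ k * (R * ρ) * Fintype.card (Fin k → Fin K → E) * Fintype.card G := by
    rw [Finset.sum_comm, Finset.sum_congr rfl fun x _ => sum_shift vl f k m K hk x, Finset.sum_comm]
    refine (Finset.sum_le_sum fun e _ => hbound e).trans (le_of_eq ?_)
    rw [Finset.sum_const, Finset.card_univ, nsmul_eq_mul, mul_comm]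
  have h1 : av (fun e : G => av (fun x : Fin k → Fin K → E =>
      ∏ j : Fin k, f (e + frE vl m j x))) ≤ F ^ k * (R * ρ) := by
    unfold av
    rw [← Finset.sum_div, div_div, div_le_iff₀ (mul_pos hXc hGc), ← mul_assoc]
    exact htot
  linarith

end Pool.Agent.Lib.MP_9f2731_nt.PL.Ap
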