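import Pool.Agent.Lib.MP_9f2731_nt.PL.Ap.Spec

/-!
MP_9f2731_nt, PL/Ap/Dnp: the density of a set of primes on the lattice (adapted from QL/Aw/DnV).
-/

namespace Pool.Agent.Lib.MP_9f2731_nt.PL.Ap

open Finset
open Pool.Agent.Lib.MP_9f2731_nt.GP
open Pool.Agent.Lib.MP_9f2731_nt.GP.Rel
open Pool.Agent.Lib.MP_9f2731_nt.GP.Asm (eb)
open Pool.Agent.Lib.MP_9f2731_nt.QL
open Pool.Agent.Lib.MP_9f2731_nt.QL.Aw
open Pool.Agent.Lib.MP_9f2731_nt.PL

/-- the height of fbv -/
private noncomputable def Dnp_h (V : ℕ) (κ : ℝ) (X : ℕ) : ℝ :=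
  (V.totient / V : ℝ) * Real.log ((X : ℝ) ^ κ) * (3 / 4)

private theorem Dnp_pos {P : ℕ → Prop} {V : ℕ} {κ : ℝ} {T M : ℕ} {q : Fin T → ℕ} {K X b : ℕ}
    {x : Fin T → ZMod M} (h : (∀ j, (x j).val + K < M) ∧ (X : ℝ) ^ κ < (b : ℝ) ∧
      (V * b * mltv q x + 1).Prime ∧ P (V * b * mltv q x)) : fbv P V κ q K X b x = Dnp_h V κ X := by
  unfold fbv
  rw [if_pos h]
  rfl

private theorem Dnp_nonneg {P : ℕ → Prop} {V : ℕ} {κ : ℝ} {T M : ℕ} {q : Fin T → ℕ} {K X b : ℕ}
    {x : Fin T → ZMod M} (hV : 0 ≤ Dnp_h V κ X) : 0 ≤ fbv P V κ q K X b x := by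
  unfold fbv
  split_ifs
  · exact hV
  · exact le_rfl

private theorem Dnp_small (X : ℕ) {κ : ℝ} :
    (((Icc 1 X).filter (fun b : ℕ => ¬ (X : ℝ) ^ κ < (b : ℝ))).card : ℝ) ≤ (X : ℝ) ^ κ := by
  have h0 : (0 : ℝ) ≤ (X : ℝ) ^ κ := Real.rpow_nonneg (Nat.cast_nonneg X) κ
  have h1 : (Icc 1 X).filter (fun b : ℕ => ¬ (X : ℝ) ^ κ < (b : ℝ)) ⊆
      Icc 1 ⌊(X : ℝ) ^ κ⌋₊ := by
    intro b hb
    obtain ⟨h2, h3⟩ := Finset.mem_filter.mp hb
    rw [Finset.mem_Icc] at h2 ⊢
    exact ⟨h2.1, Nat.le_floor (not_lt.mp h3)⟩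
  have h2 := Finset.card_le_card h1
  rw [Nat.card_Icc, Nat.add_sub_cancel] at h2
  calc (((Icc 1 X).filter (fun b : ℕ => ¬ (X : ℝ) ^ κ < (b : ℝ))).card : ℝ)
      ≤ (⌊(X : ℝ) ^ κ⌋₊ : ℝ) := by exact_mod_cast h2
    _ ≤ (X : ℝ) ^ κ := Nat.floor_le h0

/-- the number of points with distance K from the boundary -/
private theorem Dnp_box {T M K : ℕ} [NeZero M] :
    (M - K) ^ T ≤ (univ.filter (fun x : Fin T → ZMod M => ∀ j, (x j).val + K < M)).card := by
  have h1 : M - K ≤ (univ.filter (fun y : ZMod M => y.val + K < M)).card := by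
    have h2 : (range (M - K)).card ≤ (univ.filter (fun y : ZMod M => y.val + K < M)).card := by
      refine Finset.card_le_card_of_injOn (fun i : ℕ => (i : ZMod M)) ?_ ?_
      · intro i hi
        have hi' : i < M - K := Finset.mem_range.mp (Finset.mem_coe.mp hi)
        simp only [Finset.coe_filter, Finset.mem_univ, true_and, Set.mem_setOf_eq]
        rw [ZMod.val_natCast_of_lt (by omega)]
        omega
      · intro i hi j hj hij
        have hi' : i < M - K := Finset.mem_range.mp (Finset.mem_coe.mp hi)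
        have hj' : j < M - K := Finset.mem_range.mp (Finset.mem_coe.mp hj)
        have h3 := congrArg ZMod.val hij
        simp only at h3
        rwa [ZMod.val_natCast_of_lt (by omega), ZMod.val_natCast_of_lt (by omega)] at h3
    rwa [Finset.card_range] at h2
  have h2 : (univ.filter (fun x : Fin T → ZMod M => ∀ j, (x j).val + K < M)) =
      Fintype.piFinset (fun _ : Fin T => univ.filter (fun y : ZMod M => y.val + K < M)) := by
    ext x
    simp only [Finset.mem_filter, Finset.mem_univ, true_and, Fintype.mem_piFinset]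
  rw [h2, Fintype.card_piFinset, Finset.prod_const, Finset.card_univ, Fintype.card_fin]
  exact Nat.pow_le_pow_left h1 _

/-- at least half of the points have distance E from the boundary -/
private theorem Dnp_half {T M E : ℕ} [NeZero M] (hM : 2 * E * T < M) :
    (M : ℝ) ^ T / 2 ≤
      ((univ.filter (fun x : Fin T → ZMod M => ∀ j, (x j).val + E < M)).card : ℝ) := by
  have h1 := Dnp_box (T := T) (M := M) (K := E)
  have h2 : ((M - E : ℕ) : ℝ) ^ T ≤
      ((univ.filter (fun x : Fin T → ZMod M => ∀ j, (x j).val + E < M)).card : ℝ) := by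
    exact_mod_cast h1
  rcases Nat.eq_zero_or_pos T with h0 | h0
  · subst h0
    rw [pow_zero] at h2 ⊢
    linarith
  refine le_trans ?_ h2
  have hK : E ≤ M := by
    have h3 : E * 1 ≤ E * T := Nat.mul_le_mul_left E h0
    have h4 : 2 * E * T = 2 * (E * T) := by ring
    omega
  have hM0 : (0 : ℝ) < M := by
    have := NeZero.pos M
    exact_mod_cast this
  rw [Nat.cast_sub hK]
  have h3 : ((M : ℝ) - (E : ℝ)) = M * (1 + -((E : ℝ) / M)) := by
    field_simp
    ring
  have hK' : (E : ℝ) / M ≤ 1 := (div_le_one hM0).2 (by exact_mod_cast hK)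
  have h4 := one_add_mul_le_pow (a := -((E : ℝ) / M)) (by linarith) T
  have h5 : (T : ℝ) * ((E : ℝ) / M) ≤ 1 / 2 := by
    rw [← mul_div_assoc, div_le_iff₀ hM0]
    have h6 : (2 : ℝ) * E * T ≤ M := by exact_mod_cast hM.le
    nlinarith
  rw [h3, mul_pow]
  have h7 : (1 : ℝ) / 2 ≤ (1 + -((E : ℝ) / M)) ^ T := by
    refine le_trans ?_ h4
    linarith
  have h8 := mul_le_mul_of_nonneg_left h7 (pow_nonneg hM0.le T)
  linarith

open Classical in
theorem pDnp (h1 : GrpStmt) : DnpStmt := by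
  intro κ δ hκ hκ1 hδ
  refine ⟨3 * κ * δ / 128, by positivity, ?_⟩
  intro A E w1 hA hE ε hε
  obtain ⟨Xg, hXg⟩ := h1 A E w1 0 ε 1 1 (-1) hA hE hε one_pos one_pos (by
    have : (0 : ℝ) ≤ A * ε := by positivity
    linarith)
  have ev2 : ∀ᶠ x : ℝ in Filter.atTop, Real.log x ≤ δ / 8 * x ^ (1 - κ) := by
    have h1 := (isLittleO_log_rpow_atTop (sub_pos.mpr hκ1)).bound
      (show (0 : ℝ) < δ / 8 by positivity)
    filter_upwards [h1, Filter.eventually_ge_atTop 1] with x hx hx1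
    have h2 : 0 ≤ x ^ (1 - κ) := Real.rpow_nonneg (by linarith) _
    rw [Real.norm_of_nonneg h2, Real.norm_eq_abs] at hx
    exact (le_abs_self _).trans hx
  have ev3 : ∀ᶠ x : ℝ in Filter.atTop, 1 ≤ Real.log x :=
    Real.tendsto_log_atTop.eventually_ge_atTop 1
  obtain ⟨X0, hX0⟩ := Filter.eventually_atTop.mp (ev2.and (ev3.and
    (Filter.eventually_ge_atTop (max Xg 1))))
  refine ⟨X0, fun X hX s b T M w p0 V _ q hS hall P hP => ?_⟩
  obtain ⟨e2, e3, e4⟩ := hX0 (X : ℝ) hX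
  obtain ⟨-, -, -, -, -, -, -, hV1, -⟩ := hXg X ((le_max_left _ _).trans e4) s b T M w p0 V q hS
  have hM1 := hS.hN1
  have hX1 : (1 : ℝ) ≤ (X : ℝ) := (le_max_right _ _).trans e4
  have hXpos : (0 : ℝ) < (X : ℝ) := by linarith
  have hLpos : (0 : ℝ) < Real.log X := by linarith
  have hMpos : (0 : ℝ) < (M : ℝ) := by
    have := NeZero.pos M
    exact_mod_cast this
  -- the factor V / φ(V)
  have hVpos' : (0 : ℝ) < (V : ℝ) := by exact_mod_cast hV1
  have hφpos : (0 : ℝ) < (V.totient : ℝ) := by exact_mod_cast Nat.totient_pos.mpr hV1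
  have hφle : (V.totient : ℝ) ≤ (V : ℝ) := by exact_mod_cast Nat.totient_le V
  have hratio : (1 : ℝ) ≤ (V : ℝ) / (V.totient : ℝ) := (one_le_div hφpos).mpr hφle
  have hlogk : Real.log ((X : ℝ) ^ κ) = κ * Real.log X := Real.log_rpow hXpos κ
  have hV : 0 ≤ Dnp_h V κ X := by
    unfold Dnp_h
    rw [hlogk]
    positivity
  -- the small b
  have hsm : (X : ℝ) ^ κ ≤ δ / 8 * (((V : ℝ) / (V.totient : ℝ)) * X / Real.log X) := by
    have h1 : (X : ℝ) ^ κ * (8 * Real.log X) ≤ δ * X := by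
      have h2 : (X : ℝ) ^ κ * (X : ℝ) ^ (1 - κ) = X := by
        rw [← Real.rpow_add hXpos]
        have : κ + (1 - κ) = 1 := by ring
        rw [this, Real.rpow_one]
      have h3 := mul_le_mul_of_nonneg_left e2 (Real.rpow_nonneg hXpos.le κ)
      have h4 : (X : ℝ) ^ κ * (δ / 8 * (X : ℝ) ^ (1 - κ)) = δ / 8 * X := by
        rw [mul_left_comm, h2]
      rw [h4] at h3
      linarith
    have h4 : (X : ℝ) ^ κ ≤ δ / 8 * (X / Real.log X) := by
      rw [← mul_div_assoc, le_div_iff₀ hLpos]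
      linarith
    refine h4.trans ?_
    have h5 : (X : ℝ) / Real.log X ≤ ((V : ℝ) / (V.totient : ℝ)) * X / Real.log X := by
      rw [mul_div_assoc]
      exact le_mul_of_one_le_left (by positivity) hratio
    exact mul_le_mul_of_nonneg_left h5 (by positivity)
  set c0 : ℝ := 3 * κ * δ / 32 with hc0
  have hc0pos : 0 < c0 := by positivity
  -- one point
  have hone : ∀ x : Fin T → ZMod M, (∀ j, (x j).val + E < M) →
      c0 * X ≤ ∑ b ∈ Icc 1 X, fbv P V κ q E X b x := by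
    intro x hx
    have h1 := mul_le_mul_of_nonneg_left (hall x) hδ.le
    have h1' := hP x
    set Q := (Icc 1 X).filter (fun b => (V * b * mltv q x + 1).Prime ∧ P (V * b * mltv q x))
      with hQ
    set S := (Icc 1 X).filter (fun b : ℕ => ¬ (X : ℝ) ^ κ < (b : ℝ)) with hSdef
    have h2 : (S.card : ℝ) ≤ (X : ℝ) ^ κ := Dnp_small X
    have h3 : (Q.card : ℝ) ≤ ((Q \ S).card : ℝ) + (S.card : ℝ) := by
      have h4 := Finset.card_le_card_sdiff_add_card (s := Q) (t := S)
      exact_mod_cast h4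
    have h4 : δ / 8 * (((V : ℝ) / (V.totient : ℝ)) * X / Real.log X) ≤
        ((Q \ S).card : ℝ) := by linarith
    calc c0 * X = Dnp_h V κ X *
          (δ / 8 * (((V : ℝ) / (V.totient : ℝ)) * X / Real.log X)) := by
          unfold Dnp_h
          rw [hlogk, hc0]
          field_simp
          ring
      _ ≤ Dnp_h V κ X * ((Q \ S).card : ℝ) := mul_le_mul_of_nonneg_left h4 hV
      _ = ∑ b ∈ Q \ S, Dnp_h V κ X := by
          rw [Finset.sum_const, nsmul_eq_mul, mul_comm]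
      _ = ∑ b ∈ Q \ S, fbv P V κ q E X b x := by
          refine Finset.sum_congr rfl fun b hb => ?_
          obtain ⟨h5, h6⟩ := Finset.mem_sdiff.mp hb
          obtain ⟨h7, h8, h8'⟩ := Finset.mem_filter.mp h5
          have h9 : (X : ℝ) ^ κ < (b : ℝ) := by
            by_contra h9
            exact h6 (Finset.mem_filter.mpr ⟨h7, h9⟩)
          exact (Dnp_pos ⟨hx, h9, h8, h8'⟩).symm
      _ ≤ ∑ b ∈ Icc 1 X, fbv P V κ q E X b x := by
          refine Finset.sum_le_sum_of_subset_of_nonneg ?_ (fun b _ _ => Dnp_nonneg hV)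
          exact Finset.sdiff_subset.trans (Finset.filter_subset _ _)
  have hbox' := Dnp_half (T := T) (M := M) (E := E) hM1
  have hcardG : (Fintype.card (Fin T → ZMod M) : ℝ) = (M : ℝ) ^ T := by
    rw [Fintype.card_fun, Fintype.card_fin, ZMod.card]
    push_cast
    rfl
  have hsum : (M : ℝ) ^ T / 2 * (c0 * X) ≤
      ∑ x : Fin T → ZMod M, ∑ b ∈ Icc 1 X, fbv P V κ q E X b x := by
    calc (M : ℝ) ^ T / 2 * (c0 * X) ≤
          ((univ.filter (fun x : Fin T → ZMod M => ∀ j, (x j).val + E < M)).card : ℝ) *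
            (c0 * X) := mul_le_mul_of_nonneg_right hbox' (by positivity)
      _ = ∑ _x ∈ univ.filter (fun x : Fin T → ZMod M => ∀ j, (x j).val + E < M), c0 * X := by
          rw [Finset.sum_const, nsmul_eq_mul]
      _ ≤ ∑ x ∈ univ.filter (fun x : Fin T → ZMod M => ∀ j, (x j).val + E < M),
          ∑ b ∈ Icc 1 X, fbv P V κ q E X b x :=
          Finset.sum_le_sum fun x hx => hone x (Finset.mem_filter.mp hx).2
      _ ≤ ∑ x : Fin T → ZMod M, ∑ b ∈ Icc 1 X, fbv P V κ q E X b x :=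
          Finset.sum_le_sum_of_subset_of_nonneg (Finset.filter_subset _ _)
            (fun x _ _ => Finset.sum_nonneg fun b _ => Dnp_nonneg hV)
  have hfin : eb X (fun b => av (fun x : Fin T → ZMod M => fbv P V κ q E X b x)) =
      (∑ x : Fin T → ZMod M, ∑ b ∈ Icc 1 X, fbv P V κ q E X b x) /
        ((M : ℝ) ^ T) / X := by
    unfold eb av
    rw [← Finset.sum_div, Finset.sum_comm, hcardG]
  rw [hfin, le_div_iff₀ hXpos, le_div_iff₀ (by positivity)]
  refine le_trans (le_of_eq ?_) hsum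
  rw [hc0]
  ring

end Pool.Agent.Lib.MP_9f2731_nt.PL.Ap
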