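import Pool.Agent.Lib.MP_9f2731_nt.PL.Ap.Spec

/-!
MP_9f2731_nt, PL/Ap/Dvp: size of the differences (helper66, after helper9's docstring).
-/

namespace Pool.Agent.Lib.MP_9f2731_nt.PL.Ap

open Finset
open Pool.Agent.Lib.MP_9f2731_nt.GP Pool.Agent.Lib.MP_9f2731_nt.GP.Rel
open Pool.Agent.Lib.MP_9f2731_nt.QL Pool.Agent.Lib.MP_9f2731_nt.QL.Aw
open Pool.Agent.Lib.MP_9f2731_nt.PL
open Pool.Agent.Lib.MP_9f2731_nt.GP.Asm (eb)

namespace DvpAux

variable {T N b : ℕ}

/-- `z` has a representative with entries at most `A` and with sum at most `A b` -/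
def Rp (b A : ℕ) (z : Fin T → ZMod N) : Prop :=
  ∃ a : Fin T → ℕ, (∀ t, z t = (a t : ZMod N)) ∧ (∀ t, a t ≤ A) ∧ ∑ t, a t ≤ A * b

theorem Rp.zero : Rp b 0 (0 : Fin T → ZMod N) :=
  ⟨fun _ => 0, fun t => by simp, fun _ => le_rfl, by simp⟩

theorem Rp.add {A A' : ℕ} {z z' : Fin T → ZMod N} (h : Rp b A z) (h' : Rp b A' z') :
    Rp b (A + A') (z + z') := by
  obtain ⟨a, h1, h2, h3⟩ := h
  obtain ⟨a', h1', h2', h3'⟩ := h'
  refine ⟨fun t => a t + a' t, fun t => ?_, fun t => Nat.add_le_add (h2 t) (h2' t), ?_⟩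
  · rw [Pi.add_apply, h1, h1', Nat.cast_add]
  · rw [Finset.sum_add_distrib, Nat.add_mul]
    exact Nat.add_le_add h3 h3'

theorem Rp.mono {A A' : ℕ} {z : Fin T → ZMod N} (h : Rp b A z) (hA : A ≤ A') : Rp b A' z := by
  obtain ⟨a, h1, h2, h3⟩ := h
  exact ⟨a, h1, fun t => (h2 t).trans hA, h3.trans (Nat.mul_le_mul_right _ hA)⟩

theorem Rp.smul {A : ℕ} {z : Fin T → ZMod N} (h : Rp b A z) (c : ℕ) : Rp b (c * A) (c • z) := by
  obtain ⟨a, h1, h2, h3⟩ := h
  refine ⟨fun t => c * a t, fun t => ?_, fun t => Nat.mul_le_mul_left _ (h2 t), ?_⟩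
  · rw [Pi.smul_apply, h1, nsmul_eq_mul, Nat.cast_mul]
  · rw [← Finset.mul_sum, Nat.mul_assoc]
    exact Nat.mul_le_mul_left _ h3

theorem Rp.sum {ι : Type} (s : Finset ι) (A : ι → ℕ) (z : ι → Fin T → ZMod N)
    (h : ∀ i ∈ s, Rp b (A i) (z i)) : Rp b (∑ i ∈ s, A i) (∑ i ∈ s, z i) := by
  classical
  induction s using Finset.induction_on with
  | empty =>
    rw [Finset.sum_empty, Finset.sum_empty]
    exact Rp.zero
  | insert i s hi ih =>
    rw [Finset.sum_insert hi, Finset.sum_insert hi]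
    exact (h i (Finset.mem_insert_self i s)).add (ih fun j hj => h j (Finset.mem_insert_of_mem hj))

end DvpAux

open DvpAux in
theorem pDvp : DvpStmt := by
  intro T N b k m K M K' _ hk hK hN x
  have hY : ∀ y : Yb T N b, Rp b 1 (y : Fin T → ZMod N) := by
    intro y
    have h1 : (∀ j, ((y : Fin T → ZMod N) j).val ≤ 1) ∧ ∑ j, ((y : Fin T → ZMod N) j).val = b :=
      (Finset.mem_filter.1 y.2).2
    exact ⟨fun t => ((y : Fin T → ZMod N) t).val, fun t => (ZMod.natCast_zmod_val _).symm, h1.1,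
      by rw [h1.2, Nat.one_mul]⟩
  have hvw : ∀ ξ : Wd k M (Yb T N b), Rp b (k * M * k.factorial) (vw k.factorial ξ) := by
    intro ξ
    unfold vw
    refine (Rp.sum univ (fun p : Fin k × Fin M => k.factorial / ((p.1 : ℕ) + 1) * 1) _
      fun p _ => (hY (ξ p)).smul _).mono ?_
    calc ∑ p : Fin k × Fin M, k.factorial / ((p.1 : ℕ) + 1) * 1
        ≤ ∑ _p : Fin k × Fin M, k.factorial := by
          refine Finset.sum_le_sum fun p _ => ?_
          rw [Nat.mul_one]
          exact Nat.div_le_self _ _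
      _ = k * M * k.factorial := by
          rw [Finset.sum_const, Finset.card_univ, Fintype.card_prod, Fintype.card_fin,
            Fintype.card_fin, smul_eq_mul]
  have hinc : ∀ (n : ℕ) (v : Fin K → Wd k M (Yb T N b)), Rp b (n * (k * M * k.factorial))
      (incE (fun ξ : Wd k M (Yb T N b) => vw k.factorial ξ) n v) := by
    intro n v
    unfold incE
    refine (Rp.sum univ (fun t : Fin K => if (t : ℕ) < n then k * M * k.factorial else 0) _
      fun t _ => ?_).mono ?_
    · by_cases ht : (t : ℕ) < n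
      · rw [if_pos ht, if_pos ht]
        exact hvw _
      · rw [if_neg ht, if_neg ht]
        exact Rp.zero
    · rw [← Finset.sum_filter, Finset.sum_const, smul_eq_mul]
      refine Nat.mul_le_mul_right _ ?_
      have h1 : (univ.filter fun t : Fin K => (t : ℕ) < n).card ≤ (range n).card := by
        refine Finset.card_le_card_of_injOn (fun t => (t : ℕ)) ?_ ?_
        · intro t ht
          simp only [Finset.coe_filter, Finset.mem_univ, true_and, Set.mem_ofPred_eq] at ht
          simpa using ht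
        · intro t _ t' _ h
          exact Fin.ext h
      rwa [Finset.card_range] at h1
  have hmu : ∑ i : Fin k, mu k m i = k * (m + 1) := by
    obtain ⟨k', rfl⟩ : ∃ k', k = k' + 1 := ⟨k - 1, by omega⟩
    rw [Fin.sum_univ_succ]
    have h1 : mu (k' + 1) m 0 = (k' + 1) * m + 1 := by
      unfold mu
      rw [if_pos (by simp)]
    have h2 : ∀ i : Fin k', mu (k' + 1) m i.succ = 1 := by
      intro i
      unfold mu
      rw [if_neg (by simp)]
    rw [h1, Finset.sum_congr rfl fun i _ => h2 i, Finset.sum_const, Finset.card_univ,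
      Fintype.card_fin, smul_eq_mul]
    ring
  have htot : Rp b K' (∑ i, incE (fun ξ : Wd k M (Yb T N b) => vw k.factorial ξ) (mu k m i) (x i)) := by
    refine (Rp.sum univ (fun i : Fin k => mu k m i * (k * M * k.factorial)) _
      fun i _ => hinc _ _).mono ?_
    rw [← Finset.sum_mul, hmu]
    exact hK
  obtain ⟨a, h1, h2, h3⟩ := htot
  have h4 : ∀ t, ((∑ i, incE (fun ξ : Wd k M (Yb T N b) => vw k.factorial ξ) (mu k m i)
      (x i)) t).val = a t := by
    intro t
    rw [h1, ZMod.val_natCast_of_lt ((h2 t).trans_lt hN)]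
  refine ⟨fun t => ?_, ?_⟩
  · rw [h4]
    exact h2 t
  · rw [Finset.sum_congr rfl fun t _ => h4 t]
    exact h3

end Pool.Agent.Lib.MP_9f2731_nt.PL.Ap
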