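import Pool.Agent.Lib.MP_9f2731_nt.PL.Ap.Spec

/-!
MP_9f2731_nt, PL/Ap, module Fip (helper73): almost all primes.
-/

namespace Pool.Agent.Lib.MP_9f2731_nt.PL.Ap

open Finset
open Pool.Agent.Lib.MP_9f2731_nt.GP
open Pool.Agent.Lib.MP_9f2731_nt.GP.Rel
open Pool.Agent.Lib.MP_9f2731_nt.GP.Asm (eb)
open Pool.Agent.Lib.MP_9f2731_nt.QL
open Pool.Agent.Lib.MP_9f2731_nt.QL.Aw
open Pool.Agent.Lib.MP_9f2731_nt.PL

private theorem Fip_fin (P : ℕ → Prop) (k : ℕ) (C : ℝ) (X n : ℕ) : (rts P k C X n).Finite := by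
  refine (Set.finite_Iic ⌊(Real.log X) ^ C⌋₊).subset ?_
  intro r hr
  exact Nat.le_floor hr.2.1

private theorem Fip_mono (P : ℕ → Prop) (k : ℕ) (C : ℝ) (X n : ℕ) :
    (rts P (max k 3) C X n).ncard ≤ (rts (fun _ => True) k C X n).ncard := by
  refine Set.ncard_le_ncard ?_ (Fip_fin _ _ _ _ _)
  intro r hr
  exact ⟨hr.1, hr.2.1, fun i hi => ⟨(hr.2.2 i (lt_of_lt_of_le hi (le_max_left _ _))).1, trivial⟩⟩

open Classical in
theorem pFip (h1 : MainPStmt) : FipStmt := by
  intro k B δ ε hδ hε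
  obtain ⟨c, C, X0, hc, hX⟩ := h1 (max k 3) B δ ε (le_max_right _ _) hδ hε
  refine ⟨C, max X0 2, fun X hX0 => ?_⟩
  obtain ⟨V, Bm, hV, -, hBm, hP⟩ := hX X ((le_max_left _ _).trans hX0)
  have hX2 : (2 : ℝ) ≤ X := (le_max_right _ _).trans hX0
  have hX1 : (0 : ℝ) < X := by linarith
  have hlog : 0 < Real.log X := Real.log_pos (by linarith)
  have hlogB : 0 < (Real.log X) ^ B := Real.rpow_pos_of_pos hlog B
  have hex : ∃ m ∈ Bm, (((Icc 1 X).filter (fun b => (V * b * m + 1).Prime ∧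
      ((rts (fun _ => True) k C X (V * b * m)).ncard : ℝ) < (Real.log X) ^ B)).card : ℝ) ≤
      δ * (((Icc 1 X).filter (fun b => (V * b * m + 1).Prime)).card : ℝ) := by
    by_contra hcon
    push Not at hcon
    have h1 := hP (fun n => ((rts (fun _ => True) k C X n).ncard : ℝ) < (Real.log X) ^ B)
      fun m hm => by
        refine le_trans (le_of_eq ?_) ((hcon m hm).le.trans (le_of_eq ?_))
        · refine congrArg (fun t : ℕ => δ * (t : ℝ)) (congrArg Finset.card ?_)
          ext b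
          simp only [mem_filter]
        · refine congrArg (fun t : ℕ => (t : ℝ)) (congrArg Finset.card ?_)
          ext b
          simp only [mem_filter]
    have h2 : 0 < c * X := by positivity
    have h3 := h2.trans_le h1
    rw [Nat.cast_pos, card_pos] at h3
    obtain ⟨b, hb⟩ := h3
    rw [mem_filter, mem_Icc] at hb
    obtain ⟨⟨hb1, hb2⟩, m, hm, hcard⟩ := hb
    have h4 := Fip_mono (fun n => ((rts (fun _ => True) k C X n).ncard : ℝ) < (Real.log X) ^ B)
      k C X (V * b * m)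
    have h5 : (0 : ℝ) < ((rts (fun n => ((rts (fun _ => True) k C X n).ncard : ℝ) <
        (Real.log X) ^ B) (max k 3) C X (V * b * m)).ncard : ℝ) := hlogB.trans_le hcard
    rw [Nat.cast_pos] at h5
    obtain ⟨r, hr⟩ := Set.nonempty_of_ncard_ne_zero h5.ne'
    have h6 := (hr.2.2 0 (by have := le_max_right k 3; omega)).2
    rw [pow_zero, mul_one] at h6
    have h7 : (((rts (fun n => ((rts (fun _ => True) k C X n).ncard : ℝ) <
        (Real.log X) ^ B) (max k 3) C X (V * b * m)).ncard : ℕ) : ℝ) ≤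
        ((rts (fun _ => True) k C X (V * b * m)).ncard : ℝ) := by exact_mod_cast h4
    exact absurd (hcard.trans h7) (not_le.2 h6)
  obtain ⟨m, hm, hle⟩ := hex
  obtain ⟨hm1, hmX, hcnt⟩ := hBm m hm
  refine ⟨V * m, Nat.one_le_iff_ne_zero.2 (Nat.mul_ne_zero (by omega) (by omega)), hmX, ?_, ?_⟩
  · refine hcnt.trans (le_of_eq ?_)
    refine congrArg (fun t : ℕ => (t : ℝ)) (congrArg Finset.card ?_)
    ext b
    rw [mem_filter, mem_filter, show V * m * b = V * b * m by ring]
  · refine le_trans (le_of_eq ?_) (hle.trans (le_of_eq ?_))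
    · refine congrArg (fun t : ℕ => (t : ℝ)) (congrArg Finset.card ?_)
      ext b
      rw [mem_filter, mem_filter, show V * m * b = V * b * m by ring]
    · refine congrArg (fun t : ℕ => δ * (t : ℝ)) (congrArg Finset.card ?_)
      ext b
      rw [mem_filter, mem_filter, show V * m * b = V * b * m by ring]

end Pool.Agent.Lib.MP_9f2731_nt.PL.Ap
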