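import Pool.Agent.Lib.MP_9f2731_nt.PL.Ap.Spec

/-!
# MP_9f2731_nt, PL/Ap/Gdp (helper14): linear forms conditions for most integers
-/

namespace Pool.Agent.Lib.MP_9f2731_nt.PL.Ap

open Finset
open Pool.Agent.Lib.MP_9f2731_nt.GP
open Pool.Agent.Lib.MP_9f2731_nt.GP.Rel
open Pool.Agent.Lib.MP_9f2731_nt.QL
open Pool.Agent.Lib.MP_9f2731_nt.QL.Aw
open Pool.Agent.Lib.MP_9f2731_nt.PL
open Pool.Agent.Lib.MP_9f2731_nt.GP.Asm (eb)

namespace GdpAux

theorem av_nonneg {α : Type} [Fintype α] {g : α → ℝ} (hg : ∀ x, 0 ≤ g x) : 0 ≤ av g :=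
  div_nonneg (Finset.sum_nonneg fun x _ => hg x) (Nat.cast_nonneg _)

theorem cs {α : Type} [Fintype α] (g : α → ℝ) :
    (av (fun x => |g x|)) ^ 2 ≤ av (fun x => (g x) ^ 2) := by
  unfold av
  rcases Nat.eq_zero_or_pos (Fintype.card α) with h0 | h0
  · rw [h0]; simp
  have hN : (0 : ℝ) < (Fintype.card α : ℝ) := by exact_mod_cast h0
  have h1 : (∑ x, |g x|) ^ 2 ≤ (Fintype.card α : ℝ) * ∑ x, (g x) ^ 2 := by
    have h2 := sq_sum_le_card_mul_sum_sq (s := (Finset.univ : Finset α)) (f := fun x => |g x|)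
    simpa [sq_abs] using h2
  rw [div_pow, div_le_div_iff₀ (by positivity) hN]
  calc (∑ x, |g x|) ^ 2 * (Fintype.card α : ℝ)
      ≤ ((Fintype.card α : ℝ) * ∑ x, (g x) ^ 2) * (Fintype.card α : ℝ) :=
        mul_le_mul_of_nonneg_right h1 hN.le
    _ = (∑ x, (g x) ^ 2) * (Fintype.card α : ℝ) ^ 2 := by ring

theorem un {ι : Type} [DecidableEq ι] (I : Finset ι) (B : ι → Finset ℕ) (t : ℝ)
    (h : ∀ i ∈ I, ((B i).card : ℝ) ≤ t) : ((I.biUnion B).card : ℝ) ≤ I.card * t := by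
  have h1 : ((I.biUnion B).card : ℝ) ≤ ∑ i ∈ I, ((B i).card : ℝ) := by
    exact_mod_cast Finset.card_biUnion_le
  refine h1.trans ?_
  have h2 := Finset.sum_le_card_nsmul I (fun i => ((B i).card : ℝ)) t h
  rwa [nsmul_eq_mul] at h2

end GdpAux

open GdpAux in
theorem pGdp (h1 : NwaStmt) (h2 : NwbStmt) (h3 : GP.Asm.SelStmt) : GdpStmt := by
  intro k n0 M J κ θ ρ η X T N V b _ q hk hM hJ hJ2 hN hkN hY hYρ hNρ hX hη hθ hMP
  obtain ⟨gA, hgA⟩ : ∃ gA : Finset (Fin (k + k) → Bool) → ℕ → ℝ, gA = fun A b' =>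
      (av (fun z : (Fin T → ZMod N) × (Fin (k + k) × Bool → Yb T N b) =>
      ∏ ω ∈ A, nuv V κ q X b' (z.1 + ∑ a, cf k k.factorial a •
        ((z.2 (a, ω a) : Yb T N b) : Fin T → ZMod N))) - 1) ^ 2 := ⟨_, rfl⟩
  obtain ⟨gS, hgS⟩ : ∃ gS : ℕ → Finset (Fin k × (Fin k → Bool)) → ℕ → ℝ, gS = fun m S b' =>
      av (fun e : Fin T → ZMod N => (av (fun x : Fin k × Bool → Fin (k * n0 + 1) → Wd k M (Yb T N b) =>
      ∏ p ∈ S, nuv V κ q X b' (e + frE (fun ξ : Wd k M (Yb T N b) => vw k.factorial ξ) m p.1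
        (pk p.2 x))) - 1) ^ 2) := ⟨_, rfl⟩
  have hA : ∀ A, eb X (gA A) ≤ θ := by
    intro A
    rw [hgA]
    exact h1 k J κ θ ρ X T N V b q hJ2 hN hkN hY hYρ hNρ hMP A
  have hS : ∀ m S, (∀ p ∈ S, p.2 p.1 = false) → eb X (gS m S) ≤ θ := by
    intro m S hc
    rw [hgS]
    exact h2 k (k * n0 + 1) J m M κ θ ρ X T N V b q hk (by omega) hM hJ hN hkN hY hYρ hMP S hc
  have hA0 : ∀ A b', 0 ≤ gA A b' := by
    intro A b'
    rw [hgA]
    exact sq_nonneg _
  have hS0 : ∀ m S b', 0 ≤ gS m S b' := by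
    intro m S b'
    rw [hgS]
    exact av_nonneg fun e => sq_nonneg _
  have hη2 : 0 < η ^ 2 := by positivity
  have hXR : (0 : ℝ) ≤ (X : ℝ) := Nat.cast_nonneg _
  have key : ∀ g : ℕ → ℝ, (∀ b', 0 ≤ g b') → eb X g ≤ θ →
      (((Icc 1 X).filter (fun b' => η ^ 2 < g b')).card : ℝ) ≤ θ / η ^ 2 * X := by
    intro g hg hgθ
    refine (h3.2 X g (η ^ 2) hX hη2 hg).trans ?_
    rw [div_mul_eq_mul_div, mul_comm (X : ℝ)]
    exact div_le_div_of_nonneg_right (mul_le_mul_of_nonneg_right hgθ hXR) hη2.le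
  obtain ⟨CS, hCS⟩ : ∃ CS : Finset (Finset (Fin k × (Fin k → Bool))),
      CS = univ.filter (fun S => ∀ p ∈ S, p.2 p.1 = false) := ⟨_, rfl⟩
  have hb1 := un (univ : Finset (Finset (Fin (k + k) → Bool)))
    (fun A => (Icc 1 X).filter (fun b' => η ^ 2 < gA A b')) (θ / η ^ 2 * X)
    (fun A _ => key _ (hA0 A) (hA A))
  have hb2 := un (range n0 ×ˢ CS)
    (fun p => (Icc 1 X).filter (fun b' => η ^ 2 < gS p.1 p.2 b')) (θ / η ^ 2 * X) (by
      intro p hp
      refine key _ (hS0 p.1 p.2) (hS p.1 p.2 ?_)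
      have := (Finset.mem_product.1 hp).2
      rw [hCS, Finset.mem_filter] at this
      exact this.2)
  have hc1 : ((univ : Finset (Finset (Fin (k + k) → Bool))).card : ℝ) = 2 ^ (2 ^ (k + k)) := by
    rw [Finset.card_univ, Fintype.card_finset, Fintype.card_fun, Fintype.card_bool,
      Fintype.card_fin]
    push_cast
    rfl
  have hc2 : (((range n0 ×ˢ CS).card : ℕ) : ℝ) ≤ n0 * 2 ^ (k * 2 ^ k) := by
    have h3 : CS.card ≤ 2 ^ (k * 2 ^ k) := by
      have h4 : CS.card ≤ (univ : Finset (Finset (Fin k × (Fin k → Bool)))).card :=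
        Finset.card_le_univ _
      rwa [Finset.card_univ, Fintype.card_finset, Fintype.card_prod, Fintype.card_fun,
        Fintype.card_bool, Fintype.card_fin] at h4
    rw [Finset.card_product, Finset.card_range]
    push_cast
    have h5 : (CS.card : ℝ) ≤ 2 ^ (k * 2 ^ k) := by exact_mod_cast h3
    exact mul_le_mul_of_nonneg_left h5 (Nat.cast_nonneg _)
  have ht0 : 0 ≤ θ / η ^ 2 * X := mul_nonneg (div_nonneg hθ hη2.le) hXR
  refine ((Nat.cast_le (α := ℝ)).2 ((Finset.card_le_card (t :=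
      (univ : Finset (Finset (Fin (k + k) → Bool))).biUnion
        (fun A => (Icc 1 X).filter (fun b' => η ^ 2 < gA A b')) ∪
      (range n0 ×ˢ CS).biUnion
        (fun p => (Icc 1 X).filter (fun b' => η ^ 2 < gS p.1 p.2 b'))) ?_).trans
    (Finset.card_union_le _ _))).trans ?_
  · intro b' hb
    classical
    obtain ⟨hbX, hb⟩ := Finset.mem_filter.1 hb
    rw [Finset.mem_union, Finset.mem_biUnion, Finset.mem_biUnion]
    by_cases hNL : NLG (cf k k.factorial) η (Yb T N b) (fun x => nuv V κ q X b' x)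
    · right
      have hW : ¬ WLE (fun ξ : Wd k M (Yb T N b) => vw k.factorial ξ) k n0 η
        (fun x => nuv V κ q X b' x) := fun hW => hb ⟨hNL, hW⟩
      unfold WLE at hW
      push Not at hW
      obtain ⟨m, hm, S, hSc, hlt⟩ := hW
      refine ⟨(m, S), ?_, ?_⟩
      · rw [Finset.mem_product, Finset.mem_range, hCS, Finset.mem_filter]
        exact ⟨hm, Finset.mem_univ _, hSc⟩
      · rw [Finset.mem_filter]
        refine ⟨hbX, ?_⟩
        rw [hgS]
        refine lt_of_lt_of_le ?_ (cs _)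
        exact pow_lt_pow_left₀ hlt hη.le two_ne_zero
    · left
      unfold NLG at hNL
      push Not at hNL
      obtain ⟨A, hlt⟩ := hNL
      refine ⟨A, Finset.mem_univ _, ?_⟩
      rw [Finset.mem_filter]
      refine ⟨hbX, ?_⟩
      rw [hgA]
      show η ^ 2 < (_ : ℝ) ^ 2
      rw [← sq_abs (_ - 1)]
      exact pow_lt_pow_left₀ hlt hη.le two_ne_zero
  rw [Nat.cast_add]
  calc _ ≤ (2 ^ (2 ^ (k + k)) : ℝ) * (θ / η ^ 2 * X) + (n0 * 2 ^ (k * 2 ^ k)) * (θ / η ^ 2 * X) :=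
        add_le_add (hb1.trans (by rw [hc1])) (hb2.trans (mul_le_mul_of_nonneg_right hc2 ht0))
    _ = _ := by ring

end Pool.Agent.Lib.MP_9f2731_nt.PL.Ap
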