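import Pool.Agent.Lib.MP_9f2731_nt.PL.Ap.Spec

/-!
MP_9f2731_nt, PL/Ap, module Grp: growth of the scale data.
-/

namespace Pool.Agent.Lib.MP_9f2731_nt.PL.Ap

open Finset
open Pool.Agent.Lib.MP_9f2731_nt.GP
open Pool.Agent.Lib.MP_9f2731_nt.GP.Rel
open Pool.Agent.Lib.MP_9f2731_nt.GP.Asm (eb)
open Pool.Agent.Lib.MP_9f2731_nt.QL
open Pool.Agent.Lib.MP_9f2731_nt.QL.Aw
open Pool.Agent.Lib.MP_9f2731_nt.PL

namespace GrpAux

/-- all inequalities for large L -/
theorem large (A E K : ℕ) (ε ε1 η : ℝ) (hε : 0 < ε) (hε1 : 0 < ε1) (hη : 0 < η) :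
    ∃ L0 : ℝ, ∀ L : ℝ, L0 ≤ L →
    2 ≤ L ∧ (K : ℝ) + 1 ≤ L ∧ 1 ≤ Real.log L ∧
    128 * E * (A : ℝ) ^ 2 ≤ η * (Real.log L) ^ 2 ∧
    128 * E * (A : ℝ) ^ 2 * (1 + ε) ≤ Real.log L ∧ 3 ≤ L ^ ε ∧ (K : ℝ) * Real.log L ≤ L ∧
    3 * L ^ (2 + 2 * ε) ≤ Real.exp (ε1 * L) ∧
    (1 + 2 * L ^ (2 + 2 * ε)) ^ 6 ≤ η * Real.exp L ∧ Real.exp (-L) ≤ η := by
  have e1 : ∀ᶠ L : ℝ in Filter.atTop, 2 ≤ L := Filter.eventually_ge_atTop 2
  have e2 : ∀ᶠ L : ℝ in Filter.atTop, (K : ℝ) + 1 ≤ L := Filter.eventually_ge_atTop _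
  have e3 : ∀ᶠ L : ℝ in Filter.atTop, 1 ≤ Real.log L :=
    Real.tendsto_log_atTop.eventually (Filter.eventually_ge_atTop 1)
  have e4 : ∀ᶠ L : ℝ in Filter.atTop, 128 * E * (A : ℝ) ^ 2 / η ≤ Real.log L :=
    Real.tendsto_log_atTop.eventually (Filter.eventually_ge_atTop _)
  have e5 : ∀ᶠ L : ℝ in Filter.atTop, 128 * E * (A : ℝ) ^ 2 * (1 + ε) ≤ Real.log L :=
    Real.tendsto_log_atTop.eventually (Filter.eventually_ge_atTop _)
  have e6 : ∀ᶠ L : ℝ in Filter.atTop, 3 ≤ L ^ ε :=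
    (tendsto_rpow_atTop hε).eventually (Filter.eventually_ge_atTop 3)
  have e7 : ∀ᶠ L : ℝ in Filter.atTop, ‖Real.log L‖ ≤ 1 / ((K : ℝ) + 1) * ‖id L‖ :=
    Real.isLittleO_log_id_atTop.bound (by positivity)
  have e8 : ∀ᶠ L : ℝ in Filter.atTop, ‖L ^ (2 + 2 * ε)‖ ≤ 1 / 3 * ‖Real.exp (ε1 * L)‖ :=
    (isLittleO_rpow_exp_pos_mul_atTop _ hε1).bound (by norm_num)
  have e9 : ∀ᶠ L : ℝ in Filter.atTop,
      ‖L ^ ((2 + 2 * ε) * 6)‖ ≤ η / 729 * ‖Real.exp (1 * L)‖ :=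
    (isLittleO_rpow_exp_pos_mul_atTop _ one_pos).bound (by positivity)
  have e10 : ∀ᶠ L : ℝ in Filter.atTop, -Real.log η ≤ L := Filter.eventually_ge_atTop _
  obtain ⟨L0, h0⟩ := Filter.eventually_atTop.1
    (e1.and (e2.and (e3.and (e4.and (e5.and (e6.and (e7.and (e8.and (e9.and e10)))))))))
  refine ⟨L0, fun L hL => ?_⟩
  obtain ⟨h1, h2, h3, h4, h5, h6, h7, h8, h9, h10⟩ := h0 L hL
  have hL0 : 0 < L := by linarith
  have hL1 : 1 ≤ L := by linarith
  refine ⟨h1, h2, h3, ?_, h5, h6, ?_, ?_, ?_, ?_⟩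
  · rw [div_le_iff₀ hη] at h4
    refine h4.trans ?_
    rw [mul_comm]
    exact mul_le_mul_of_nonneg_left (le_self_pow₀ h3 (by norm_num)) hη.le
  · have hl0 : 0 ≤ Real.log L := by linarith
    rw [Real.norm_of_nonneg hl0, id, Real.norm_of_nonneg hL0.le] at h7
    have h11 : (0 : ℝ) < (K : ℝ) + 1 := by positivity
    calc (K : ℝ) * Real.log L ≤ ((K : ℝ) + 1) * Real.log L :=
          mul_le_mul_of_nonneg_right (by linarith) hl0
      _ ≤ ((K : ℝ) + 1) * (1 / ((K : ℝ) + 1) * L) := mul_le_mul_of_nonneg_left h7 h11.le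
      _ = L := by field_simp
  · rw [Real.norm_of_nonneg (by positivity), Real.norm_of_nonneg (Real.exp_pos _).le] at h8
    linarith
  · rw [Real.norm_of_nonneg (by positivity), Real.norm_of_nonneg (Real.exp_pos _).le, one_mul] at h9
    have h11 : (1 : ℝ) ≤ L ^ (2 + 2 * ε) := Real.one_le_rpow hL1 (by positivity)
    have h12 : L ^ ((2 + 2 * ε) * 6) = (L ^ (2 + 2 * ε)) ^ 6 := by
      rw [Real.rpow_mul hL0.le]
      exact_mod_cast rfl
    rw [h12] at h9
    calc (1 + 2 * L ^ (2 + 2 * ε)) ^ 6 ≤ (3 * L ^ (2 + 2 * ε)) ^ 6 := by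
          apply pow_le_pow_left₀ (by positivity)
          linarith
      _ = 729 * (L ^ (2 + 2 * ε)) ^ 6 := by ring
      _ ≤ 729 * (η / 729 * Real.exp L) := by linarith
      _ = η * Real.exp L := by ring
  · calc Real.exp (-L) ≤ Real.exp (Real.log η) := Real.exp_le_exp.2 (by linarith)
      _ = η := Real.exp_log hη

theorem logV (w p0 V : ℕ)
    (hV : V = ∏ p ∈ (range (w + 1)).filter (fun p => p.Prime ∧ p ≠ p0), p) :
    1 ≤ V ∧ Real.log V ≤ 2 * w := by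
  have h1 : 1 ≤ V := by
    rw [hV]
    have : 0 < ∏ p ∈ (range (w + 1)).filter (fun p => p.Prime ∧ p ≠ p0), p := by
      apply Finset.prod_pos
      intro p hp
      rw [Finset.mem_filter] at hp
      exact hp.2.1.pos
    exact this
  have h2 : V ≤ 4 ^ w := by
    refine le_trans ?_ (primorial_le_four_pow w)
    rw [hV, primorial]
    refine Finset.prod_le_prod_of_subset_of_one_le' ?_ ?_
    · intro p hp
      rw [Finset.mem_filter] at hp ⊢
      exact ⟨hp.1, hp.2.1⟩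
    · intro p hp _
      exact (Finset.mem_filter.1 hp).2.one_lt.le
  refine ⟨h1, ?_⟩
  have h3 : (V : ℝ) ≤ 4 ^ w := by exact_mod_cast h2
  have h4 : Real.log V ≤ Real.log (4 ^ w) := Real.log_le_log (by exact_mod_cast h1) h3
  rw [Real.log_pow] at h4
  have h5 : Real.log 4 ≤ 2 := by
    have : (4 : ℝ) = 2 ^ 2 := by norm_num
    rw [this, Real.log_pow]
    have := Real.log_two_lt_d9
    push_cast
    linarith
  have h6 : (0 : ℝ) ≤ w := Nat.cast_nonneg w
  nlinarith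

end GrpAux

open GrpAux in
theorem pGrp : GrpStmt := by
  intro A E w1 K0 ε ε1 η B hA hE hε hε1 hη hB
  obtain ⟨L0, hL0⟩ := large A E (K0 + w1) ε ε1 η hε hε1 hη
  refine ⟨Real.exp (Real.exp L0), ?_⟩
  intro X hX s b T N w p0 V q h
  have hX0 : (0 : ℝ) < X := lt_of_lt_of_le (Real.exp_pos _) hX
  have hl1 : Real.exp L0 ≤ Real.log X := (Real.le_log_iff_exp_le hX0).2 hX
  have hl0 : 0 < Real.log X := lt_of_lt_of_le (Real.exp_pos _) hl1
  have hl2 : L0 ≤ Real.log (Real.log X) := (Real.le_log_iff_exp_le hl0).2 hl1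
  have hexp : Real.exp (Real.log (Real.log X)) = Real.log X := Real.exp_log hl0
  obtain ⟨L, hL⟩ : ∃ L : ℝ, L = Real.log (Real.log X) := ⟨_, rfl⟩
  obtain ⟨a1, a2, a3, a4, a5, a6, a7, a8, a9, a10⟩ := hL0 _ hl2
  have hsd := h.hs
  have hbd := h.hb
  have hTd := h.hT
  have hwd := h.hw
  rw [← hL] at a1 a2 a3 a4 a5 a6 a7 a8 a9 a10 hexp hsd hbd hwd ⊢
  obtain ⟨l, hl⟩ : ∃ l : ℝ, l = Real.log L := ⟨_, rfl⟩
  obtain ⟨Y, hY⟩ : ∃ Y : ℝ, Y = L ^ ε := ⟨_, rfl⟩
  obtain ⟨P, hP⟩ : ∃ P : ℝ, P = L ^ (2 + 2 * ε) := ⟨_, rfl⟩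
  have hLp : 0 < L := by linarith
  have hLone : 1 ≤ L := by linarith
  have hPY : P = L ^ 2 * Y ^ 2 := by
    rw [hP, hY, Real.rpow_add hLp, mul_comm (2 : ℝ) ε, Real.rpow_mul hLp.le]
    norm_cast
  have hPY3 : L ^ (2 + 3 * ε) = P * Y := by
    rw [hP, hY, ← Real.rpow_add hLp]
    congr 1
    ring
  have hlogP : Real.log P = (2 + 2 * ε) * l := by
    rw [hP, hl, Real.log_rpow hLp]
  have hYexp : Y = Real.exp (ε * l) := by
    rw [hY, hl, Real.rpow_def_of_pos hLp, mul_comm]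
  rw [hPY3]
  rw [← hP] at a8 a9 hwd
  rw [← hY] at a6 hsd
  rw [← hl] at a3 a4 a5 a7 hbd
  have hlp : 0 < l := by linarith
  have hYp : 0 < Y := by linarith
  have hA' : (1 : ℝ) ≤ A := by exact_mod_cast hA
  have hE' : (1 : ℝ) ≤ E := by exact_mod_cast hE
  have hlL : l ≤ L := by
    rw [hl]
    linarith [Real.log_le_sub_one_of_pos hLp]
  have hL2 : L ≤ L ^ 2 := le_self_pow₀ hLone (by norm_num)
  have hPL : L ≤ P := by
    rw [hPY]
    have h1 : (1 : ℝ) ≤ Y ^ 2 := one_le_pow₀ (by linarith)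
    calc L ≤ L ^ 2 * 1 := by linarith
      _ ≤ L ^ 2 * Y ^ 2 := mul_le_mul_of_nonneg_left h1 (by positivity)
  have hPp : 0 < P := by linarith
  -- s
  have hs1 : Y ≤ s := by
    rw [hsd]
    exact Nat.le_ceil _
  have hs2 : (s : ℝ) ≤ 2 * Y := by
    have h1 : (s : ℝ) < Y + 1 := by
      rw [hsd]
      exact Nat.ceil_lt_add_one hYp.le
    linarith
  have hs0 : (0 : ℝ) ≤ s := Nat.cast_nonneg s
  -- b
  have hALl : 1 ≤ (A : ℝ) * L / l := by
    rw [le_div_iff₀ hlp, one_mul]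
    exact hlL.trans (le_mul_of_one_le_left hLp.le hA')
  have hb1 : (A : ℝ) * L / l ≤ b := by
    rw [hbd]
    exact Nat.le_ceil _
  have hb2 : (b : ℝ) ≤ 2 * ((A : ℝ) * L / l) := by
    have h1 : (b : ℝ) < (A : ℝ) * L / l + 1 := by
      rw [hbd]
      exact Nat.ceil_lt_add_one (by linarith)
    linarith
  have hb0 : (0 : ℝ) ≤ b := Nat.cast_nonneg b
  have hs1' : 1 ≤ s := by
    have : (1 : ℝ) ≤ s := by linarith
    exact_mod_cast this
  have hb1' : 1 ≤ b := by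
    have : (1 : ℝ) ≤ b := by linarith
    exact_mod_cast this
  -- T
  have hTs : (T : ℝ) = b * s := by
    rw [hTd]
    push_cast
    rfl
  have hT0 : (0 : ℝ) ≤ T := Nat.cast_nonneg T
  have hTb : (b : ℝ) ≤ T := by
    rw [hTs]
    exact le_mul_of_one_le_right hb0 (by exact_mod_cast hs1')
  have hT2 : (T : ℝ) ≤ 4 * A * (L * Y) / l := by
    calc (T : ℝ) = b * s := hTs
      _ ≤ (2 * ((A : ℝ) * L / l)) * (2 * Y) := mul_le_mul hb2 hs2 hs0 (by positivity)
      _ = 4 * A * (L * Y) / l := by ring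
  have hT3 : (T : ℝ) ^ 2 ≤ 16 * A ^ 2 * P / l ^ 2 := by
    calc (T : ℝ) ^ 2 ≤ (4 * A * (L * Y) / l) ^ 2 := pow_le_pow_left₀ hT0 hT2 2
      _ = 16 * A ^ 2 * P / l ^ 2 := by
          rw [hPY]
          ring
  have hN2 : (N : ℝ) ≤ 4 * E * T := by exact_mod_cast h.hN2
  have hN0 : (0 : ℝ) ≤ N := Nat.cast_nonneg N
  have hTN0 : (0 : ℝ) ≤ T * N := mul_nonneg hT0 hN0
  have hTN : (T : ℝ) * N ≤ 64 * E * A ^ 2 * P / l ^ 2 := by
    calc (T : ℝ) * N ≤ T * (4 * E * T) := mul_le_mul_of_nonneg_left hN2 hT0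
      _ = 4 * E * T ^ 2 := by ring
      _ ≤ 4 * E * (16 * A ^ 2 * P / l ^ 2) := mul_le_mul_of_nonneg_left hT3 (by positivity)
      _ = 64 * E * A ^ 2 * P / l ^ 2 := by ring
  -- w
  have hw1 : (w : ℝ) ≤ P := by
    rw [hwd]
    exact Nat.floor_le hPp.le
  have hw2 : P - 1 < w := by
    rw [hwd]
    exact Nat.sub_one_lt_floor _
  have hw3 : P / 2 ≤ w := by linarith
  have hKw : (K0 : ℝ) + w1 ≤ w := by
    push_cast at a2
    linarith
  have hKw' : K0 + w1 ≤ w := by exact_mod_cast hKw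
  have hwp : (0 : ℝ) < w := by linarith
  have hlw : Real.log w ≤ (2 + 2 * ε) * l := by
    have h1 := Real.log_le_log hwp hw1
    rwa [hlogP] at h1
  -- V
  obtain ⟨v1, v2⟩ := logV w p0 V h.hV
  have hV2 : Real.log V ≤ 2 * P := by linarith
  have hV0 : 0 ≤ Real.log V := Real.log_nonneg (by exact_mod_cast v1)
  have hmem : ∀ p : ℕ, p.Prime → p ≤ w → p ≠ p0 → p ∣ V := by
    intro p hp hpw hp0
    rw [h.hV]
    exact Finset.dvd_prod_of_mem (fun p => p)
      (Finset.mem_filter.2 ⟨Finset.mem_range.2 (by omega), hp, hp0⟩)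
  have hsum : Real.log V + T * N * Real.log w ≤ 3 * P := by
    have h1 : (T : ℝ) * N * Real.log w ≤ P := by
      calc (T : ℝ) * N * Real.log w ≤ T * N * ((2 + 2 * ε) * l) :=
            mul_le_mul_of_nonneg_left hlw hTN0
        _ ≤ (64 * E * A ^ 2 * P / l ^ 2) * ((2 + 2 * ε) * l) :=
            mul_le_mul_of_nonneg_right hTN (by positivity)
        _ = (128 * E * (A : ℝ) ^ 2 * (1 + ε)) * P / l := by
            field_simp
            ring
        _ ≤ l * P / l := by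
            apply div_le_div_of_nonneg_right _ hlp.le
            exact mul_le_mul_of_nonneg_right a5 hPp.le
        _ = P := by field_simp
    linarith
  have hlogX : Real.log X ≤ X := (Real.log_le_sub_one_of_pos hX0).trans (by linarith)
  have hLX : L ≤ Real.log X := by
    rw [← hexp]
    linarith [Real.add_one_le_exp L]
  have hw10 : (0 : ℝ) ≤ w1 := Nat.cast_nonneg w1
  have hKL : (K0 : ℝ) ≤ L := by
    push_cast at a2
    linarith
  refine ⟨?_, hKL, ?_, by omega, by omega, hb1', hs1', v1, fun j => ?_, ?_, hmem, ?_, ?_, ?_, ?_,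
    ?_, ?_⟩
  · have : (K0 : ℝ) ≤ X := by linarith
    exact_mod_cast this
  · have h1 : (K0 : ℝ) ≤ (A : ℝ) * L / l := by
      rw [le_div_iff₀ hlp]
      push_cast at a7
      have h2 : (K0 : ℝ) * l ≤ (K0 + w1) * l := mul_le_mul_of_nonneg_right (by linarith) hlp.le
      exact (h2.trans a7).trans (le_mul_of_one_le_left hLp.le hA')
    have : (K0 : ℝ) ≤ T := by linarith
    exact_mod_cast this
  · exact hmem _ (h.hq j).1 (h.hq j).2.1 (h.hq j).2.2
  · intro p hp hpw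
    exact hmem p hp (by omega) (by have := h.hp1; omega)
  · calc (1 + Real.log V) ^ 6 ≤ (1 + 2 * P) ^ 6 :=
          pow_le_pow_left₀ (by linarith) (by linarith) 6
      _ ≤ η * Real.exp L := a9
      _ = η * Real.log X := by rw [hexp]
  · calc (T : ℝ) * N ≤ 64 * E * A ^ 2 * P / l ^ 2 := hTN
      _ = (128 * E * (A : ℝ) ^ 2) * (P / 2) / l ^ 2 := by ring
      _ ≤ (η * l ^ 2) * (P / 2) / l ^ 2 := by
          apply div_le_div_of_nonneg_right _ (by positivity)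
          exact mul_le_mul_of_nonneg_right a4 (by positivity)
      _ = η * (P / 2) := by field_simp
      _ ≤ η * w := mul_le_mul_of_nonneg_left hw3 hη.le
  · refine hsum.trans (a8.trans ?_)
    rw [← hexp, ← Real.exp_mul, mul_comm]
  · refine hsum.trans ?_
    rw [mul_comm]
    exact mul_le_mul_of_nonneg_left a6 hPp.le
  · calc (b : ℝ) * Real.log w ≤ b * ((2 + 2 * ε) * l) := mul_le_mul_of_nonneg_left hlw hb0
      _ ≤ (2 * ((A : ℝ) * L / l)) * ((2 + 2 * ε) * l) :=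
          mul_le_mul_of_nonneg_right hb2 (by positivity)
      _ = 4 * A * (1 + ε) * L := by
          field_simp
          ring
  · have h7 : (Real.log X) ^ B = Real.exp (B * L) := by
      rw [← hexp, ← Real.exp_mul, mul_comm]
    rw [h7]
    have h8 : Real.exp ((B + 1) * L) ≤ (s : ℝ) ^ b := by
      calc Real.exp ((B + 1) * L) ≤ Real.exp (b * (ε * l)) := by
            apply Real.exp_le_exp.2
            have h9 : (B + 1) * L ≤ (A * ε) * L := mul_le_mul_of_nonneg_right hB hLp.le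
            have h10 : ((A : ℝ) * L / l) * (ε * l) ≤ b * (ε * l) :=
              mul_le_mul_of_nonneg_right hb1 (by positivity)
            have h11 : ((A : ℝ) * L / l) * (ε * l) = (A * ε) * L := by
              field_simp
            linarith
        _ = Y ^ b := by rw [hYexp, Real.exp_nat_mul]
        _ ≤ (s : ℝ) ^ b := pow_le_pow_left₀ hYp.le hs1 b
    calc Real.exp (B * L) = Real.exp (-L) * Real.exp ((B + 1) * L) := by
          rw [← Real.exp_add]
          congr 1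
          ring
      _ ≤ η * (s : ℝ) ^ b := mul_le_mul a10 h8 (Real.exp_pos _).le hη.le

end Pool.Agent.Lib.MP_9f2731_nt.PL.Ap
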