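import Pool.Agent.Lib.MP_9f2731_nt.PL.Ap.Spec
import Pool.Agent.Lib.MP_9f2731_nt.QL.Aw.Cwg

/-!
MP_9f2731_nt, PL/Ap, module Nwb: the wide condition in mean square.
-/

namespace Pool.Agent.Lib.MP_9f2731_nt.PL.Ap

open Finset
open Pool.Agent.Lib.MP_9f2731_nt.GP
open Pool.Agent.Lib.MP_9f2731_nt.GP.Rel
open Pool.Agent.Lib.MP_9f2731_nt.GP.Asm (eb)
open Pool.Agent.Lib.MP_9f2731_nt.QL
open Pool.Agent.Lib.MP_9f2731_nt.QL.Aw
open Pool.Agent.Lib.MP_9f2731_nt.PL

theorem pNwb (h1 : CwpStmt) (h2 : BoxStmt) : NwbStmt := by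
  intro k K J m M κ θ ρ X T N V b _ q hk hK hM hJ hNp hkN hne hρ hMean S hS
  have hbox := h2 T N N le_rfl
  have : Nonempty (Yb T N b) := hne.to_subtype
  have hC := h1 k (Fin T → ZMod N) (Yb T N b) m K M hk hne hK hM
    (fun n hn hn2 => hbox.2 hNp n hn (by omega))
  have hcard := GP.Asm.lf2_card S
  exact hMean (Fin T → ZMod N) (Fin k × Bool → Fin K → Wd k M (Yb T N b)) (Fin k × (Fin k → Bool)) S
    (fun p e x => e + frE (fun ξ : Wd k M (Yb T N b) => vw k.factorial ξ) m p.1 (pk p.2 x)) (by omega)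
    (fun p hp p' hp' hne' => by
      rw [GP.Asm.lf2_av_prod (fun (e : Fin T → ZMod N)
          (x : Fin k × Bool → Fin K → Wd k M (Yb T N b)) =>
        if e + frE (fun ξ : Wd k M (Yb T N b) => vw k.factorial ξ) m p.1 (pk p.2 x) =
          e + frE (fun ξ : Wd k M (Yb T N b) => vw k.factorial ξ) m p'.1 (pk p'.2 x)
            then (1 : ℝ) else 0)]
      refine cwg_le _ _ fun e => ?_
      simp only [add_right_inj]
      exact ((hC p p' (hS p hp) (hS p' hp')).1 hne').trans hρ)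
    (fun p hp p' hp' => by
      rw [GP.Asm.lf2_av_prod (fun (e : Fin T → ZMod N)
          (y : (Fin k × Bool → Fin K → Wd k M (Yb T N b)) ×
            (Fin k × Bool → Fin K → Wd k M (Yb T N b))) =>
        if e + frE (fun ξ : Wd k M (Yb T N b) => vw k.factorial ξ) m p.1 (pk p.2 y.1) =
          e + frE (fun ξ : Wd k M (Yb T N b) => vw k.factorial ξ) m p'.1 (pk p'.2 y.2)
            then (1 : ℝ) else 0)]
      refine cwg_le _ _ fun e => ?_
      simp only [add_right_inj]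
      exact ((hC p p' (hS p hp) (hS p' hp')).2).trans hρ)

end Pool.Agent.Lib.MP_9f2731_nt.PL.Ap
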