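import Pool.Agent.Lib.MP_9f2731_nt.PL.Ap.Spec

/-!
MP_9f2731_nt, PL/Ap, module Ptp (helper73): from the lattice to numbers.
-/

namespace Pool.Agent.Lib.MP_9f2731_nt.PL.Ap

open Finset
open Pool.Agent.Lib.MP_9f2731_nt.GP
open Pool.Agent.Lib.MP_9f2731_nt.GP.Rel
open Pool.Agent.Lib.MP_9f2731_nt.GP.Asm (eb)
open Pool.Agent.Lib.MP_9f2731_nt.QL
open Pool.Agent.Lib.MP_9f2731_nt.QL.Aw
open Pool.Agent.Lib.MP_9f2731_nt.PL

theorem pPtp : PtpStmt := by
  intro T N k K' _ q hq _ e d hd hval
  -- values along the progression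
  have hP : ∀ i : ℕ, i < k → ∀ t : Fin T,
      ((e + i • d) t).val = (e t).val + i * (d t).val := by
    intro i
    induction i with
    | zero =>
      intro _ t
      simp
    | succ i ih =>
      intro hi t
      have h1 := ih (by omega) t
      have h2 : (e + (i + 1) • d) t = (e + i • d) t + d t := by
        rw [succ_nsmul, ← add_assoc]
        rfl
      have h3 := hval i (by omega) t
      have h4 := hd t
      rw [h2, ZMod.val_add_of_lt (by omega), h1]
      ring
  refine ⟨?_, ?_, ?_⟩
  · intro i hi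
    unfold mltv
    rw [← Finset.prod_pow, ← Finset.prod_mul_distrib]
    refine Finset.prod_congr rfl fun t _ => ?_
    rw [hP i hi t, pow_add, ← pow_mul, mul_comm i]
  · intro hd0
    obtain ⟨t, ht⟩ : ∃ t, d t ≠ 0 := by
      by_contra hcon
      push Not at hcon
      exact hd0 (funext hcon)
    have h1 : (d t).val ≠ 0 := fun h0 => ht ((ZMod.val_eq_zero (d t)).1 h0)
    have h2 : q t ∣ mltv q d :=
      (dvd_pow_self _ h1).trans
        (Finset.dvd_prod_of_mem (fun t => q t ^ (d t).val) (mem_univ t))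
    have h3 : 0 < mltv q d := Finset.prod_pos fun t _ => pow_pos (hq t).pos _
    exact (hq t).two_le.trans (Nat.le_of_dvd h3 h2)
  · intro Q hQ
    unfold mltv
    rw [Nat.cast_prod, Real.log_prod]
    · rw [Nat.cast_sum, Finset.sum_mul]
      refine Finset.sum_le_sum fun t _ => ?_
      rw [Nat.cast_pow, Real.log_pow]
      have h1 : (1 : ℝ) ≤ q t := by exact_mod_cast (hq t).one_lt.le
      have h3 : Real.log (q t) ≤ Real.log Q :=
        Real.log_le_log (by linarith) (by exact_mod_cast hQ t)
      exact mul_le_mul_of_nonneg_left h3 (Nat.cast_nonneg _)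
    · intro t _
      have : q t ^ (d t).val ≠ 0 := pow_ne_zero _ (hq t).ne_zero
      exact_mod_cast this

end Pool.Agent.Lib.MP_9f2731_nt.PL.Ap
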