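import Pool.Agent.Lib.MP_9f2731_nt.PL.Ap.Spec

/-!
MP_9f2731_nt, PL/Ap, module Scp: existence of the scale data.
-/

namespace Pool.Agent.Lib.MP_9f2731_nt.PL.Ap

open Finset
open Pool.Agent.Lib.MP_9f2731_nt.GP Pool.Agent.Lib.MP_9f2731_nt.GP.Rel Pool.Agent.Lib.MP_9f2731_nt.QL
  Pool.Agent.Lib.MP_9f2731_nt.QL.Aw Pool.Agent.Lib.MP_9f2731_nt.PL
open Pool.Agent.Lib.MP_9f2731_nt.GP.Asm (eb)

namespace ScpAux

/-- Euler's function of V m, when all prime factors of m divide V. -/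
theorem tot (V m : ℕ) (hV : 1 ≤ V) (hm : SmV V m) : (V * m).totient = m * V.totient := by
  have hW : V ≠ 0 := by omega
  have hm0 : m ≠ 0 := by
    have := hm.1
    omega
  have h1 : (V * m).primeFactors = V.primeFactors := by
    rw [Nat.primeFactors_mul hW hm0]
    apply Finset.union_eq_left.mpr
    intro p hp
    have hp1 := Nat.prime_of_mem_primeFactors hp
    have hp2 := Nat.dvd_of_mem_primeFactors hp
    exact Nat.mem_primeFactors.mpr ⟨hp1, hm.2 p hp1 hp2, hW⟩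
  have h2 := Nat.totient_eq_mul_prod_factors (V * m)
  have h3 := Nat.totient_eq_mul_prod_factors V
  rw [h1] at h2
  have h4 : ((V * m).totient : ℚ) = ((m * V.totient : ℕ) : ℚ) := by
    rw [h2]
    push_cast
    rw [h3]
    ring
  exact_mod_cast h4

/-- size of T -/
theorem szT (A : ℕ) (ε : ℝ) (hA : 1 ≤ A) (hε : 0 < ε) (L : ℝ) (hL4 : 4 ≤ L)
    (hl : 16 * (A : ℝ) ≤ Real.log L) (s b T : ℕ) (hs : s = ⌈L ^ ε⌉₊)
    (hb : b = ⌈(A : ℝ) * L / Real.log L⌉₊) (hT : T = b * s) :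
    (T : ℝ) ≤ L ^ (1 + ε) / 4 := by
  have hL0 : 0 < L := by linarith
  have hLone : 1 ≤ L := by linarith
  have hA' : (1 : ℝ) ≤ A := by exact_mod_cast hA
  have hl0 : 0 < Real.log L := by nlinarith
  have hlL : Real.log L ≤ L := by
    have := Real.log_le_sub_one_of_pos hL0
    linarith
  have hLe : 1 ≤ L ^ ε := Real.one_le_rpow hLone hε.le
  have hs2 : (s : ℝ) ≤ 2 * L ^ ε := by
    have h1 : (s : ℝ) < L ^ ε + 1 := by rw [hs]; exact Nat.ceil_lt_add_one (by positivity)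
    linarith
  have hq : 1 ≤ (A : ℝ) * L / Real.log L := by
    rw [le_div_iff₀ hl0]
    nlinarith
  have hb2 : (b : ℝ) ≤ 2 * ((A : ℝ) * L / Real.log L) := by
    have h1 : (b : ℝ) < (A : ℝ) * L / Real.log L + 1 := by
      rw [hb]; exact Nat.ceil_lt_add_one (by positivity)
    linarith
  have h3 : L ^ (1 + ε) = L * L ^ ε := by
    rw [Real.rpow_add hL0, Real.rpow_one]
  have h4 : (A : ℝ) / Real.log L ≤ 1 / 16 := by
    rw [div_le_div_iff₀ hl0 (by norm_num)]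
    linarith
  calc (T : ℝ) = (b : ℝ) * s := by rw [hT]; push_cast; ring
    _ ≤ (2 * ((A : ℝ) * L / Real.log L)) * (2 * L ^ ε) :=
        mul_le_mul hb2 hs2 (Nat.cast_nonneg _) (by positivity)
    _ = 4 * (L * L ^ ε) * ((A : ℝ) / Real.log L) := by ring
    _ ≤ 4 * (L * L ^ ε) * (1 / 16) := mul_le_mul_of_nonneg_left h4 (by positivity)
    _ = L ^ (1 + ε) / 4 := by rw [h3]; ring

/-- enough primes -/
theorem prs (A w0 : ℕ) (ε : ℝ) (hA : 1 ≤ A) (hε : 0 < ε) (L : ℝ) (hL4 : 4 ≤ L)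
    (hl : 16 * (A : ℝ) ≤ Real.log L) (hLw : (w0 : ℝ) + 1 ≤ L)
    (hP : ∀ w : ℕ, w0 ≤ w → Real.sqrt w ≤ (((range (w + 1)).filter Nat.Prime).card : ℝ))
    (s b T w p0 : ℕ) (hs : s = ⌈L ^ ε⌉₊)
    (hb : b = ⌈(A : ℝ) * L / Real.log L⌉₊) (hT : T = b * s) (hw : w = ⌊L ^ (2 + 2 * ε)⌋₊) :
    T ≤ ((range (w + 1)).filter (fun p => p.Prime ∧ p ≠ p0)).card := by
  have hL0 : 0 < L := by linarith
  have hLone : 1 ≤ L := by linarith
  have hw2 : L ^ (2 + 2 * ε) - 1 < w := by rw [hw]; exact Nat.sub_one_lt_floor _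
  have hU : L ^ (2 + 2 * ε) = (L ^ (1 + ε)) ^ 2 := by
    rw [← Real.rpow_natCast, ← Real.rpow_mul hL0.le]
    congr 1
    push_cast
    ring
  have hU1 : L ≤ L ^ (1 + ε) := by
    calc L = L ^ (1 : ℝ) := (Real.rpow_one L).symm
      _ ≤ L ^ (1 + ε) := Real.rpow_le_rpow_of_exponent_le hLone (by linarith)
  have hww : w0 ≤ w := by
    have : (w0 : ℝ) ≤ w := by nlinarith
    exact_mod_cast this
  have hT2 := szT A ε hA hε L hL4 hl s b T hs hb hT
  have hT0 : (0 : ℝ) ≤ T := Nat.cast_nonneg T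
  have h2 : ((T : ℝ) + 1) ^ 2 ≤ w := by
    have h1 : (T : ℝ) + 1 ≤ L ^ (1 + ε) / 2 := by linarith
    have h3 : ((T : ℝ) + 1) ^ 2 ≤ (L ^ (1 + ε) / 2) ^ 2 := pow_le_pow_left₀ (by positivity) h1 2
    nlinarith
  have h3 : (T : ℝ) + 1 ≤ Real.sqrt w := Real.le_sqrt_of_sq_le h2
  have h4 : (T : ℝ) + 1 ≤ (((range (w + 1)).filter Nat.Prime).card : ℝ) := h3.trans (hP w hww)
  have h5 : T + 1 ≤ ((range (w + 1)).filter Nat.Prime).card := by exact_mod_cast h4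
  have h6 : ((range (w + 1)).filter Nat.Prime).erase p0 ⊆
      (range (w + 1)).filter (fun p => p.Prime ∧ p ≠ p0) := by
    intro p hp
    rw [Finset.mem_erase, Finset.mem_filter] at hp
    exact Finset.mem_filter.2 ⟨hp.2.1, hp.2.2, hp.1⟩
  have h7 := Finset.card_le_card h6
  have h8 := Finset.pred_card_le_card_erase (s := (range (w + 1)).filter Nat.Prime) (a := p0)
  omega

end ScpAux

open ScpAux in
theorem pScp (h1 : ApVStmt) (h2 : PrcStmt) (h3 : MlVStmt) (h4 : GrpStmt) : ScpStmt := by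
  intro A E w1 ε hA hE hε
  obtain ⟨ε1, hε1, hap⟩ := h1
  obtain ⟨X1, hX1⟩ := hap w1
  obtain ⟨w0, hw0⟩ := h2
  have hA' : (1 : ℝ) ≤ A := by exact_mod_cast hA
  obtain ⟨X2, hX2⟩ := h4 A E w1 1 ε ε1 1 (-1) hA hE hε hε1 one_pos (by
    have : 0 ≤ (A : ℝ) * ε := by positivity
    linarith)
  obtain ⟨L0, hL0⟩ : ∃ L0 : ℝ, L0 = max 4 (max (Real.exp (16 * (A : ℝ))) ((w0 : ℝ) + 1)) :=
    ⟨_, rfl⟩
  refine ⟨max (max X1 X2) (Real.exp (Real.exp L0)), ?_⟩
  intro X hX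
  have hXa : X1 ≤ X := ((le_max_left _ _).trans (le_max_left _ _)).trans hX
  have hXb : X2 ≤ X := ((le_max_right _ _).trans (le_max_left _ _)).trans hX
  have hXc : Real.exp (Real.exp L0) ≤ X := (le_max_right _ _).trans hX
  have hXp : (0 : ℝ) < X := lt_of_lt_of_le (Real.exp_pos _) hXc
  have hl1 : Real.exp L0 ≤ Real.log X := (Real.le_log_iff_exp_le hXp).2 hXc
  have hl0 : 0 < Real.log X := lt_of_lt_of_le (Real.exp_pos _) hl1
  have hl2 : L0 ≤ Real.log (Real.log X) := (Real.le_log_iff_exp_le hl0).2 hl1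
  have hLa : 4 ≤ Real.log (Real.log X) := by
    refine le_trans ?_ hl2
    rw [hL0]; exact le_max_left _ _
  have hLp : 0 < Real.log (Real.log X) := by linarith
  have hLb : 16 * (A : ℝ) ≤ Real.log (Real.log (Real.log X)) := by
    rw [Real.le_log_iff_exp_le hLp]
    refine le_trans ?_ hl2
    rw [hL0]; exact (le_max_left _ _).trans (le_max_right _ _)
  have hLc : (w0 : ℝ) + 1 ≤ Real.log (Real.log X) := by
    refine le_trans ?_ hl2
    rw [hL0]; exact (le_max_right _ _).trans (le_max_right _ _)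
  obtain ⟨p0, hp0, hp1, hq⟩ := hX1 X hXa
  obtain ⟨s, hs⟩ : ∃ s : ℕ, s = ⌈(Real.log (Real.log X)) ^ ε⌉₊ := ⟨_, rfl⟩
  obtain ⟨b, hb⟩ : ∃ b : ℕ,
      b = ⌈(A : ℝ) * Real.log (Real.log X) / Real.log (Real.log (Real.log X))⌉₊ := ⟨_, rfl⟩
  obtain ⟨T, hT⟩ : ∃ T : ℕ, T = b * s := ⟨_, rfl⟩
  obtain ⟨w, hw⟩ : ∃ w : ℕ, w = ⌊(Real.log (Real.log X)) ^ (2 + 2 * ε)⌋₊ := ⟨_, rfl⟩
  have hlll : 0 < Real.log (Real.log (Real.log X)) := by nlinarith
  have hs0 : 0 < s := by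
    rw [hs]
    exact Nat.ceil_pos.2 (by positivity)
  have hb0 : 0 < b := by
    rw [hb]
    exact Nat.ceil_pos.2 (by positivity)
  have hT0 : 0 < T := by
    rw [hT]
    exact Nat.mul_pos hb0 hs0
  have hET : 2 * E * T ≠ 0 := by positivity
  obtain ⟨N, hN, hN1, hN2⟩ := Nat.exists_prime_lt_and_le_two_mul (2 * E * T) hET
  obtain ⟨V, hV⟩ : ∃ V : ℕ, V = ∏ p ∈ (range (w + 1)).filter (fun p => p.Prime ∧ p ≠ p0), p :=
    ⟨_, rfl⟩
  have hcard := prs A w0 ε hA hε _ hLa hLb hLc hw0 s b T w p0 hs hb hT hw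
  obtain ⟨q, hqd⟩ : ∃ q : Fin T ↪o ℕ,
      ∀ j, q j ∈ (range (w + 1)).filter (fun p => p.Prime ∧ p ≠ p0) :=
    ⟨Finset.orderEmbOfCardLe _ hcard, fun j => Finset.orderEmbOfCardLe_mem _ hcard j⟩
  have hscl : SclP A E w1 ε X s b T N w p0 V q := by
    refine ⟨hs, hb, hT, hN, hN1, by linarith, hw, hp0, hp1, hV, fun j => ?_, q.injective⟩
    have := hqd j
    rw [Finset.mem_filter, Finset.mem_range] at this
    exact ⟨this.2.1, by omega, this.2.2⟩
  refine ⟨s, b, T, N, w, p0, V, q, hscl, ?_⟩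
  intro x
  have : NeZero N := ⟨hN.ne_zero⟩
  obtain ⟨-, -, -, -, -, -, -, v1, v2, -, -, -, -, v3, -⟩ := hX2 X hXb s b T N w p0 V q hscl
  obtain ⟨-, m2, m3⟩ := h3 T q (fun j => (hscl.hq j).1) q.injective N
  have hsm := m2 V v2 x
  have hlm := m3 w (fun j => (hscl.hq j).2.1) x
  have hV0 : (0 : ℝ) < V := by exact_mod_cast v1
  have hm0 : (0 : ℝ) < mltv q x := by exact_mod_cast hsm.1
  have hQ1 : 1 ≤ V * mltv q x := Nat.mul_pos v1 hsm.1
  have hnd : ¬ p0 ∣ V * mltv q x := by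
    intro hdv
    rcases (hp0.dvd_mul).1 hdv with h | h
    · rw [hV] at h
      obtain ⟨p, hp, hpp⟩ := hp0.prime.exists_mem_finset_dvd h
      rw [Finset.mem_filter] at hp
      exact hp.2.2 ((Nat.prime_dvd_prime_iff_eq hp0 hp.2.1).1 hpp).symm
    · rw [mltv] at h
      obtain ⟨j, _, hj⟩ := hp0.prime.exists_mem_finset_dvd h
      have h5 := hp0.dvd_of_dvd_pow hj
      exact (hscl.hq j).2.2 ((Nat.prime_dvd_prime_iff_eq hp0 (hscl.hq j).1).1 h5).symm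
  have hlogQ : Real.log ((V * mltv q x : ℕ) : ℝ) ≤ (Real.log X) ^ ε1 := by
    rw [Nat.cast_mul, Real.log_mul hV0.ne' hm0.ne']
    linarith
  have h6 := hq (V * mltv q x) hQ1 hnd hlogQ
  rw [tot V _ v1 hsm] at h6
  have h7 : (((V * mltv q x : ℕ) : ℝ) / ((mltv q x * V.totient : ℕ) : ℝ)) =
      (V : ℝ) / V.totient := by
    push_cast
    rw [mul_comm (V : ℝ), mul_div_mul_left _ _ hm0.ne']
  rw [h7] at h6
  refine h6.trans (le_of_eq ?_)
  have h8 : (Icc 1 X).filter (fun b => (V * mltv q x * b + 1).Prime) =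
      (Icc 1 X).filter (fun b => (V * b * mltv q x + 1).Prime) := by
    apply Finset.filter_congr
    intro b _
    rw [show V * mltv q x * b = V * b * mltv q x by ring]
  rw [h8]

end Pool.Agent.Lib.MP_9f2731_nt.PL.Ap
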