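import Pool.Agent.Lib.MP_9f2731_nt.PL.Ap.Spec

/-!
MP_9f2731_nt, PL/Ap/Sgp: the singular factor is small for all configurations.
-/

namespace Pool.Agent.Lib.MP_9f2731_nt.PL.Ap

open Finset
open Pool.Agent.Lib.MP_9f2731_nt.GP
open Pool.Agent.Lib.MP_9f2731_nt.GP.Rel
open Pool.Agent.Lib.MP_9f2731_nt.QL
open Pool.Agent.Lib.MP_9f2731_nt.QL.Aw
open Pool.Agent.Lib.MP_9f2731_nt.PL
open Pool.Agent.Lib.MP_9f2731_nt.GP.Asm (eb)

/-- the logarithm of the product of the differences -/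
private theorem Sgp_log (S : Finset ℕ) (J : ℕ) (hS : S.card ≤ J) (B : ℝ) (hB : 0 ≤ B)
    (h : ∀ m ∈ S, Real.log m ≤ B) : Real.log (Del S) ≤ J ^ 2 * B := by
  unfold Del
  rw [Nat.cast_prod, Real.log_prod]
  · have hcard : ((S ×ˢ S).filter (fun a => a.1 < a.2)).card ≤ J ^ 2 := by
      calc ((S ×ˢ S).filter (fun a => a.1 < a.2)).card ≤ (S ×ˢ S).card := Finset.card_filter_le _ _
        _ = S.card * S.card := Finset.card_product _ _
        _ ≤ J * J := Nat.mul_le_mul hS hS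
        _ = J ^ 2 := (sq J).symm
    calc ∑ a ∈ (S ×ˢ S).filter (fun a => a.1 < a.2), Real.log ((a.2 - a.1 : ℕ) : ℝ)
        ≤ ∑ _a ∈ (S ×ˢ S).filter (fun a => a.1 < a.2), B := by
          refine Finset.sum_le_sum fun a ha => ?_
          obtain ⟨h1, h2⟩ := Finset.mem_filter.1 ha
          have h3 := (Finset.mem_product.1 h1).2
          refine le_trans ?_ (h a.2 h3)
          refine Real.log_le_log ?_ ?_
          · have : 0 < a.2 - a.1 := by omega
            exact_mod_cast this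
          · exact_mod_cast Nat.sub_le _ _
      _ = ((S ×ˢ S).filter (fun a => a.1 < a.2)).card * B := by
          rw [Finset.sum_const, nsmul_eq_mul]
      _ ≤ J ^ 2 * B := by
          refine mul_le_mul_of_nonneg_right ?_ hB
          exact_mod_cast hcard
  · intro a ha
    have h2 := (Finset.mem_filter.1 ha).2
    have : a.2 - a.1 ≠ 0 := by omega
    exact_mod_cast this

private theorem Sgp_ne (S : Finset ℕ) : Del S ≠ 0 := by
  unfold Del
  refine Finset.prod_ne_zero_iff.2 fun a ha => ?_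
  rw [mem_filter] at ha
  omega

/-- few large prime factors -/
private theorem Sgp_few (n w : ℕ) (hn : n ≠ 0) (hw : 2 ≤ w) (B : ℝ)
    (h : Real.log n ≤ B * Real.log w) :
    ((n.primeFactors.filter (fun p => w < p)).card : ℝ) ≤ B := by
  obtain ⟨c, hc⟩ : ∃ c, c = (n.primeFactors.filter (fun p => w < p)).card := ⟨_, rfl⟩
  have h1 : w ^ c ≤ ∏ p ∈ n.primeFactors.filter (fun p => w < p), p := by
    rw [hc, ← Finset.prod_const]
    exact Finset.prod_le_prod (fun _ _ => Nat.zero_le _) fun p hp =>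
      (Finset.mem_filter.1 hp).2.le
  have h2 : ∏ p ∈ n.primeFactors.filter (fun p => w < p), p ∣ n :=
    (Finset.prod_dvd_prod_of_subset _ _ _ (Finset.filter_subset _ _)).trans
      (Nat.prod_primeFactors_dvd n)
  have h3 : w ^ c ≤ n := h1.trans (Nat.le_of_dvd (Nat.pos_of_ne_zero hn) h2)
  have hw1 : (1 : ℝ) < w := by exact_mod_cast hw
  have hlw : 0 < Real.log w := Real.log_pos hw1
  have h4 : (c : ℝ) * Real.log w ≤ Real.log n := by
    rw [← Real.log_pow]
    refine Real.log_le_log (by positivity) ?_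
    exact_mod_cast h3
  rw [← hc]
  exact le_of_mul_le_mul_right (h4.trans h) hlw

/-- the sum over the primes not dividing V -/
private theorem Sgp_sum (C : ℝ) (hC : 0 ≤ C) (V n w p0 : ℕ) (hw : 1 ≤ w) (hp0 : 1 ≤ p0)
    (hV : ∀ p : ℕ, p.Prime → p ≤ w → p ≠ p0 → p ∣ V) :
    ∑ p ∈ n.primeFactors.filter (fun p => ¬ p ∣ V), C / (p : ℝ) ≤
      C / p0 + (n.primeFactors.filter (fun p => w < p)).card * (C / w) := by
  have hsub : n.primeFactors.filter (fun p => ¬ p ∣ V) ⊆
      {p0} ∪ n.primeFactors.filter (fun p => w < p) := by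
    intro p hp
    obtain ⟨h1, h2⟩ := Finset.mem_filter.1 hp
    rw [Finset.mem_union, Finset.mem_singleton, Finset.mem_filter]
    by_cases h3 : p = p0
    · exact Or.inl h3
    · refine Or.inr ⟨h1, ?_⟩
      by_contra h4
      exact h2 (hV p (Nat.prime_of_mem_primeFactors h1) (not_lt.1 h4) h3)
  have h0 : ∀ p : ℕ, 0 ≤ C / (p : ℝ) := fun p => div_nonneg hC (Nat.cast_nonneg _)
  calc ∑ p ∈ n.primeFactors.filter (fun p => ¬ p ∣ V), C / (p : ℝ)
      ≤ ∑ p ∈ {p0} ∪ n.primeFactors.filter (fun p => w < p), C / (p : ℝ) :=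
        Finset.sum_le_sum_of_subset_of_nonneg hsub fun p _ _ => h0 p
    _ ≤ ∑ p ∈ ({p0} : Finset ℕ), C / (p : ℝ) +
        ∑ p ∈ n.primeFactors.filter (fun p => w < p), C / (p : ℝ) := by
        rw [← Finset.sum_union_inter]
        have : 0 ≤ ∑ p ∈ {p0} ∩ n.primeFactors.filter (fun p => w < p), C / (p : ℝ) :=
          Finset.sum_nonneg fun p _ => h0 p
        linarith
    _ ≤ C / p0 + (n.primeFactors.filter (fun p => w < p)).card * (C / w) := by
        rw [Finset.sum_singleton]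
        refine add_le_add le_rfl ?_
        rw [← nsmul_eq_mul, ← Finset.sum_const]
        refine Finset.sum_le_sum fun p hp => ?_
        have h1 := (Finset.mem_filter.1 hp).2
        refine div_le_div_of_nonneg_left hC ?_ ?_
        · exact_mod_cast hw
        · exact_mod_cast h1.le

theorem pSgp (h1 : MlVStmt) (h2 : GrpStmt) : SgpStmt := by
  have hM := h1
  have hG := h2
  clear h1 h2
  intro J C η hC hη
  obtain ⟨η1, hη1, hη2, hη3⟩ : ∃ η1 : ℝ, 0 < η1 ∧ η1 ≤ η ∧ η1 ≤ 1 :=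
    ⟨min η 1, lt_min hη one_pos, min_le_left _ _, min_le_right _ _⟩
  have hJ : (0 : ℝ) < (J : ℝ) ^ 2 + 1 := by positivity
  refine ⟨⌈4 * C / η1⌉₊ + 1, fun A E hA hE ε hε w2 hw2 => ?_⟩
  obtain ⟨X0, hX0⟩ := hG A E w2 2 ε 1 (η1 / (4 * C * ((J : ℝ) ^ 2 + 1))) (-1) hA hE hε one_pos
    (by positivity) (by
      have : (0 : ℝ) ≤ A * ε := by positivity
      linarith)
  refine ⟨X0, fun X hX s b T M w p0 V _ q hS S hSJ => ?_⟩
  obtain ⟨-, -, -, -, hw, -, -, -, -, -, hpV, -, hTM, -⟩ := hX0 X hX s b T M w p0 V q hS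
  have hw0 : (0 : ℝ) < w := by
    have : 0 < w := by omega
    exact_mod_cast this
  have hlw : 0 ≤ Real.log w := Real.log_natCast_nonneg w
  have hlog := (hM T q (fun j => (hS.hq j).1) hS.hqi M).2.2 w (fun j => (hS.hq j).2.1)
  obtain ⟨n, hn⟩ : ∃ n, n = Del (S.image (mltv q)) := ⟨_, rfl⟩
  have hn0 : n ≠ 0 := by rw [hn]; exact Sgp_ne _
  have h1 : Real.log n ≤ (J : ℝ) ^ 2 * (T * M) * Real.log w := by
    rw [hn, mul_assoc]
    refine Sgp_log _ J (Finset.card_image_le.trans hSJ) _ (by positivity) fun m hm => ?_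
    obtain ⟨x, -, rfl⟩ := Finset.mem_image.1 hm
    exact hlog x
  have h2 := Sgp_few n w hn0 hw _ h1
  have h3 := Sgp_sum C hC.le V n w p0 (by omega) hS.hp.one_lt.le hpV
  -- the prime p0
  have h4 : C / p0 ≤ η1 / 4 := by
    have h5 : 4 * C / η1 ≤ (p0 : ℝ) := by
      have h6 := Nat.le_ceil (4 * C / η1)
      have h7 : ⌈4 * C / η1⌉₊ ≤ p0 := by
        have := hS.hp1
        omega
      have h8 : ((⌈4 * C / η1⌉₊ : ℕ) : ℝ) ≤ p0 := by exact_mod_cast h7
      linarith
    have h9 : (0 : ℝ) < p0 := by exact_mod_cast hS.hp.pos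
    rw [div_le_iff₀ hη1] at h5
    rw [div_le_iff₀ h9]
    linarith
  -- the primes greater than w
  have h5 : ((n.primeFactors.filter (fun p => w < p)).card : ℝ) * (C / w) ≤ η1 / 4 := by
    have h6 : ((n.primeFactors.filter (fun p => w < p)).card : ℝ) * (C / w) ≤
        (J : ℝ) ^ 2 * (T * M) * (C / w) := mul_le_mul_of_nonneg_right h2 (by positivity)
    have h7 : (J : ℝ) ^ 2 * (T * M) * (C / w) ≤
        (J : ℝ) ^ 2 * (η1 / (4 * C * ((J : ℝ) ^ 2 + 1)) * w) * (C / w) := by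
      refine mul_le_mul_of_nonneg_right ?_ (by positivity)
      exact mul_le_mul_of_nonneg_left hTM (by positivity)
    have h8 : (J : ℝ) ^ 2 * (η1 / (4 * C * ((J : ℝ) ^ 2 + 1)) * w) * (C / w) =
        η1 / 4 * ((J : ℝ) ^ 2 / ((J : ℝ) ^ 2 + 1)) := by
      field_simp
    have h9 : (J : ℝ) ^ 2 / ((J : ℝ) ^ 2 + 1) ≤ 1 := (div_le_one hJ).2 (by linarith)
    have h10 := mul_le_mul_of_nonneg_left h9 (show 0 ≤ η1 / 4 by positivity)
    linarith
  have h6 : singV C V n ≤ Real.exp (η1 / 2) := by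
    unfold singV
    calc ∏ p ∈ n.primeFactors.filter (fun p => ¬ p ∣ V), (1 + C / (p : ℝ))
        ≤ ∏ p ∈ n.primeFactors.filter (fun p => ¬ p ∣ V), Real.exp (C / (p : ℝ)) := by
          refine Finset.prod_le_prod (fun p _ => ?_) fun p _ => ?_
          · positivity
          · linarith [Real.add_one_le_exp (C / (p : ℝ))]
      _ = Real.exp (∑ p ∈ n.primeFactors.filter (fun p => ¬ p ∣ V), C / (p : ℝ)) :=
          (Real.exp_sum _ _).symm
      _ ≤ Real.exp (η1 / 2) := Real.exp_le_exp.2 (by linarith)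
  have h7 : Real.exp (η1 / 2) ≤ 1 + η1 := by
    have h8 := Real.abs_exp_sub_one_sub_id_le (x := η1 / 2) (by
      rw [abs_of_pos (by positivity)]
      linarith)
    have h9 := (abs_le.1 h8).2
    nlinarith
  rw [← hn]
  linarith

end Pool.Agent.Lib.MP_9f2731_nt.PL.Ap
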