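import Pool.Agent.Lib.MP_9f2731_nt.PL.Ap.Spec

/-!
MP_9f2731_nt, THEOREM PL, chapter Ap, module Yc: the size of the narrow set.
-/

namespace Pool.Agent.Lib.MP_9f2731_nt.PL.Ap

open Finset
open Pool.Agent.Lib.MP_9f2731_nt.GP
open Pool.Agent.Lib.MP_9f2731_nt.GP.Rel
open Pool.Agent.Lib.MP_9f2731_nt.GP.Asm (eb)
open Pool.Agent.Lib.MP_9f2731_nt.QL
open Pool.Agent.Lib.MP_9f2731_nt.QL.Aw
open Pool.Agent.Lib.MP_9f2731_nt.PL

/-- the vector of a function -/
private def YcF (N b s : ℕ) (g : Fin b → Fin s) : Fin (b * s) → ZMod N := fun j =>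
  if (finProdFinEquiv.symm j).2 = g (finProdFinEquiv.symm j).1 then 1 else 0

private theorem Yc_val (N b s : ℕ) (hN : 2 ≤ N) (g : Fin b → Fin s) (j : Fin (b * s)) :
    (YcF N b s g j).val =
      if (finProdFinEquiv.symm j).2 = g (finProdFinEquiv.symm j).1 then 1 else 0 := by
  unfold YcF
  split_ifs
  · rw [ZMod.val_one_eq_one_mod]
    exact Nat.mod_eq_of_lt (by omega)
  · exact ZMod.val_zero

private theorem Yc_sum (N b s : ℕ) (hN : 2 ≤ N) (g : Fin b → Fin s) :
    ∑ j, (YcF N b s g j).val = b := by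
  simp only [Yc_val N b s hN g]
  rw [Equiv.sum_comp finProdFinEquiv.symm
    (fun p : Fin b × Fin s => if p.2 = g p.1 then 1 else 0), Fintype.sum_prod_type]
  simp

theorem pYc : YcStmt := by
  intro T N b s _ hT hN
  subst hT
  have h : (univ : Finset (Fin b → Fin s)).card ≤ (Yb (b * s) N b).card := by
    refine Finset.card_le_card_of_injOn (YcF N b s) ?_ ?_
    · intro g _
      simp only [Yb, coe_filter, mem_univ, true_and, Set.mem_ofPred_eq]
      refine ⟨fun j => ?_, Yc_sum N b s hN g⟩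
      rw [Yc_val N b s hN]
      split_ifs <;> omega
    · intro g _ g' _ hgg
      funext u
      have h1 := congrArg ZMod.val (congrFun hgg (finProdFinEquiv (u, g u)))
      rw [Yc_val N b s hN, Yc_val N b s hN, Equiv.symm_apply_apply] at h1
      by_contra hne
      rw [if_pos rfl, if_neg hne] at h1
      omega
  rw [card_univ, Fintype.card_fun, Fintype.card_fin, Fintype.card_fin] at h
  exact_mod_cast h

end Pool.Agent.Lib.MP_9f2731_nt.PL.Ap
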