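import Pool.Agent.Lib.MP_9f2731_nt.PL.Ap.Bsp
import Pool.Agent.Lib.MP_9f2731_nt.PL.Ap.Cnp
import Pool.Agent.Lib.MP_9f2731_nt.PL.Ap.Cwp
import Pool.Agent.Lib.MP_9f2731_nt.PL.Ap.Dgp
import Pool.Agent.Lib.MP_9f2731_nt.PL.Ap.Dnp
import Pool.Agent.Lib.MP_9f2731_nt.PL.Ap.Dvp
import Pool.Agent.Lib.MP_9f2731_nt.PL.Ap.Fip
import Pool.Agent.Lib.MP_9f2731_nt.PL.Ap.Gdp
import Pool.Agent.Lib.MP_9f2731_nt.PL.Ap.Gnp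
import Pool.Agent.Lib.MP_9f2731_nt.PL.Ap.Grp
import Pool.Agent.Lib.MP_9f2731_nt.PL.Ap.Msp
import Pool.Agent.Lib.MP_9f2731_nt.PL.Ap.Nwa
import Pool.Agent.Lib.MP_9f2731_nt.PL.Ap.Nwb
import Pool.Agent.Lib.MP_9f2731_nt.PL.Ap.Nwc
import Pool.Agent.Lib.MP_9f2731_nt.PL.Ap.Ptp
import Pool.Agent.Lib.MP_9f2731_nt.PL.Ap.Scp
import Pool.Agent.Lib.MP_9f2731_nt.PL.Ap.Sgp
import Pool.Agent.Lib.MP_9f2731_nt.PL.Ap.Vwc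
import Pool.Agent.Lib.MP_9f2731_nt.PL.Ap.Yc
import Pool.Agent.Lib.MP_9f2731_nt.QL.Aw.Box
import Pool.Agent.Lib.MP_9f2731_nt.QL.Aw.MjV
import Pool.Agent.Lib.MP_9f2731_nt.QL.Aw.MlV
import Pool.Agent.Lib.MP_9f2731_nt.QL.Aw.Prc
import Pool.Agent.Lib.MP_9f2731_nt.GP.Asm.Sel

/-!
MP_9f2731_nt, PL/Ap (helper9): assembly.
-/

namespace Pool.Agent.Lib.MP_9f2731_nt.PL.Ap

open Pool.Agent.Lib.MP_9f2731_nt.GP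
open Pool.Agent.Lib.MP_9f2731_nt.QL
open Pool.Agent.Lib.MP_9f2731_nt.QL.Aw (pMlV pPrc pBox pMjV)

theorem apAll (hRel : RelPStmt) (hCor : CorVStmt) (hMom : MomVStmt) (hAp : ApVStmt) : MainPStmt := by
  have aMsp := pMsp (pGnp hCor hMom pMlV pGrp (pSgp pMlV pGrp)) pGrp
  have aGdp := pGdp (pNwa pCnp pBox) (pNwb (pCwp pVwc) pBox) GP.Asm.pSel
  exact pBsp hRel aMsp pGrp pMlV pBox pYc pVwc pNwc aGdp GP.Asm.pSel (pScp hAp pPrc pMlV pGrp)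
    (pDnp pGrp) pMjV pDgp pDvp pPtp

end Pool.Agent.Lib.MP_9f2731_nt.PL.Ap
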