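import Pool.Agent.Lib.MP_9f2731_nt.PL.Ap.Spec

/-!
MP_9f2731_nt, PL/Ap, module Bsp (helper9): the main step.
-/

namespace Pool.Agent.Lib.MP_9f2731_nt.PL.Ap

open Finset
open Pool.Agent.Lib.MP_9f2731_nt.GP
open Pool.Agent.Lib.MP_9f2731_nt.GP.Rel
open Pool.Agent.Lib.MP_9f2731_nt.GP.Asm (eb)
open Pool.Agent.Lib.MP_9f2731_nt.QL
open Pool.Agent.Lib.MP_9f2731_nt.QL.Aw
open Pool.Agent.Lib.MP_9f2731_nt.PL

private theorem bsp_mono {α : Type} [Fintype α] (f g : α → ℝ) (h : ∀ x, f x ≤ g x) :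
    av f ≤ av g := by
  unfold av
  exact div_le_div_of_nonneg_right (sum_le_sum fun x _ => h x) (Nat.cast_nonneg _)

private theorem bsp_nonneg {α : Type} [Fintype α] (f : α → ℝ) (h : ∀ x, 0 ≤ f x) : 0 ≤ av f := by
  unfold av
  exact div_nonneg (sum_nonneg fun x _ => h x) (Nat.cast_nonneg _)

open Classical in
private theorem bsp_fb {P : ℕ → Prop} {V : ℕ} {κ : ℝ} {T N : ℕ} {q : Fin T → ℕ} {K X b : ℕ}
    {x : Fin T → ZMod N} (h : fbv P V κ q K X b x ≠ 0) :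
    (∀ j, (x j).val + K < N) ∧ (V * b * mltv q x + 1).Prime ∧ P (V * b * mltv q x) := by
  by_contra hcon
  apply h
  unfold fbv
  rw [if_neg]
  exact fun h' => hcon ⟨h'.1, h'.2.2.1, h'.2.2.2⟩

private theorem bsp_exp {n : ℕ} {t : ℝ} (hn : 1 ≤ n) (h : Real.log n ≤ t) : (n : ℝ) ≤ Real.exp t := by
  have hn0 : (0 : ℝ) < n := Nat.cast_pos.2 (by omega)
  rwa [← Real.log_le_iff_le_exp hn0]

private theorem bsp_filter {α : Type} [Fintype α] {p : α → Prop} (inst : DecidablePred p) {R : ℕ}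
    (h : R < (@Finset.filter α p inst univ).card) :
    ∃ Dd : Finset α, (∀ d ∈ Dd, p d) ∧ R < Dd.card :=
  ⟨@Finset.filter α p inst univ, fun _ hd => (mem_filter.1 hd).2, h⟩

private theorem bsp_fin (P : ℕ → Prop) (k : ℕ) (C : ℝ) (X n : ℕ) : (rts P k C X n).Finite :=
  (Set.finite_Icc 0 ⌊(Real.log X) ^ C⌋₊).subset fun r hr => ⟨Nat.zero_le r, Nat.le_floor hr.2.1⟩

open Classical in
private theorem bsp_rts (h16 : PtpStmt) {P : ℕ → Prop} {V : ℕ} {κ : ℝ} {T N : ℕ} [NeZero N]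
    {q : Fin T → ℕ} {E X b b' k R w : ℕ} {C : ℝ}
    (hMl : Function.Injective (fun x : Fin T → ZMod N => mltv q x)) (hq : ∀ j, (q j).Prime)
    (hEN : E < N) (hqw : ∀ j, q j ≤ w) (hlogX : 0 < Real.log X)
    (hlog : ((E * b : ℕ) : ℝ) * Real.log w ≤ Real.log (Real.log X) * C)
    (e : Fin T → ZMod N) (Dd : Finset (Fin T → ZMod N))
    (hD : ∀ d ∈ Dd, (∀ t, (d t).val ≤ E) ∧ ∑ t, (d t).val ≤ E * b ∧
      ∀ i : ℕ, i < k → fbv P V κ q E X b' (e + i • d) ≠ 0) (hR : R < Dd.card) :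
    (R : ℝ) ≤ ((rts P k C X (V * b' * mltv q e)).ncard : ℝ) := by
  have hsub : (((Dd.erase 0).image (fun x : Fin T → ZMod N => mltv q x) : Finset ℕ) : Set ℕ) ⊆
      rts P k C X (V * b' * mltv q e) := by
    intro r hr
    rw [mem_coe, mem_image] at hr
    obtain ⟨d, hd, rfl⟩ := hr
    obtain ⟨hd0, hd1⟩ := mem_erase.1 hd
    obtain ⟨a1, a2, a3⟩ := hD d hd1
    obtain ⟨p1, p2, p3⟩ := h16 T N k E q hq hEN e d a1 fun i hi t => (bsp_fb (a3 i hi)).1 t
    refine ⟨p2 hd0, ?_, fun i hi => ?_⟩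
    · rw [Real.rpow_def_of_pos hlogX]
      refine bsp_exp (by have := p2 hd0; omega) ((p3 w hqw).trans (le_trans ?_ hlog))
      exact mul_le_mul_of_nonneg_right (by exact_mod_cast a2) (Real.log_natCast_nonneg w)
    · have h1 := (bsp_fb (a3 i hi)).2
      rw [p1 i hi] at h1
      rw [mul_assoc (V * b')]
      exact h1
  have h2 : R ≤ ((Dd.erase 0).image (fun x : Fin T → ZMod N => mltv q x)).card := by
    rw [card_image_of_injective _ hMl]
    have := pred_card_le_card_erase (s := Dd) (a := 0)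
    omega
  have h3 := Set.ncard_le_ncard hsub (bsp_fin P k C X _)
  rw [Set.ncard_coe_finset] at h3
  exact_mod_cast h2.trans h3

open Classical in
theorem pBsp (h1 : RelPStmt) (h2 : MspStmt) (h3 : GrpStmt) (h4 : MlVStmt) (h5 : BoxStmt)
    (h6 : YcStmt) (h7 : VwcStmt) (h8 : NwcStmt) (h9 : GdpStmt) (h10 : GP.Asm.SelStmt)
    (h11 : ScpStmt) (h12 : DnpStmt) (h13 : MjVStmt) (h14 : DgpStmt) (h15 : DvpStmt)
    (h16 : PtpStmt) : BspStmt := by
  intro k B δ ε hk hδ hε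
  have h2k : 1 ≤ 2 ^ k := Nat.one_le_two_pow
  have h22k : 1 ≤ 2 ^ (k + k) := Nat.one_le_two_pow
  have hkk : 1 ≤ k * 2 ^ k := Nat.one_le_iff_ne_zero.2 (Nat.mul_ne_zero (by omega) (by omega))
  obtain ⟨J, hJ⟩ : ∃ J : ℕ, J = 2 * (k * 2 ^ k) + 2 * 2 ^ (k + k) := ⟨_, rfl⟩
  obtain ⟨κ, B0, hκ0, hκ1, hMs⟩ := h2 J (by omega)
  obtain ⟨δ', hδ', hDn⟩ := h12 κ δ hκ0 hκ1 hδ
  obtain ⟨c, η, n0, M, hc, hη, hM, hRel⟩ := h1 k δ' (by omega) hδ'
  have hfac : 1 ≤ k.factorial := Nat.succ_le_of_lt (Nat.factorial_pos k)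
  obtain ⟨E, hE⟩ : ∃ E : ℕ, E = k * (n0 + 1) * (k * M * k.factorial) := ⟨_, rfl⟩
  have hE1 : 1 ≤ E := by
    rw [hE]
    exact Nat.one_le_iff_ne_zero.2 (Nat.mul_ne_zero (Nat.mul_ne_zero (by omega) (by omega))
      (Nat.mul_ne_zero (Nat.mul_ne_zero (by omega) (by omega)) (by omega)))
  obtain ⟨ε', hε'⟩ : ∃ ε' : ℝ, ε' = ε / 3 := ⟨_, rfl⟩
  have hε'0 : 0 < ε' := by rw [hε']; positivity
  obtain ⟨B1, hB1⟩ : ∃ B1 : ℝ, B1 = max B 0 := ⟨_, rfl⟩
  have hB1B : B ≤ B1 := by rw [hB1]; exact le_max_left _ _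
  have hB10 : 0 ≤ B1 := by rw [hB1]; exact le_max_right _ _
  obtain ⟨A, hA1, hAB, hAk⟩ : ∃ A : ℕ, 1 ≤ A ∧ B0 ≤ A * ε' ∧ (k : ℝ) + B1 + 1 ≤ A * ε' := by
    obtain ⟨A1, hA1⟩ := exists_nat_ge ((|B0| + k + B1 + 1) / ε')
    rw [div_le_iff₀ hε'0] at hA1
    have hk0 : (0 : ℝ) ≤ k := Nat.cast_nonneg k
    have := le_abs_self B0
    have := abs_nonneg B0
    refine ⟨A1 + 1, by omega, ?_, ?_⟩
    · push_cast
      nlinarith
    · push_cast
      nlinarith
  obtain ⟨nS, hnS⟩ : ∃ nS : ℝ, nS = 2 ^ (2 ^ (k + k)) + n0 * 2 ^ (k * 2 ^ k) := ⟨_, rfl⟩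
  have hnS0 : 0 < nS := by
    rw [hnS]
    positivity
  obtain ⟨θ, hθ, hθ1, hθ2⟩ : ∃ θ : ℝ, 0 < θ ∧ θ ≤ 1 / 6 ∧ nS * (θ / η ^ 2) ≤ δ' ^ 2 / 4 := by
    refine ⟨min (1 / 6) (η ^ 2 * δ' ^ 2 / (4 * nS)), by positivity, min_le_left _ _, ?_⟩
    have hm := min_le_right (1 / 6 : ℝ) (η ^ 2 * δ' ^ 2 / (4 * nS))
    rw [← mul_div_assoc, div_le_iff₀ (by positivity)]
    refine (mul_le_mul_of_nonneg_left hm hnS0.le).trans (le_of_eq ?_)
    field_simp
  obtain ⟨w1, hw1⟩ := hMs θ hθ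
  obtain ⟨X1, hX1⟩ := hw1 A E hA1 hE1 ε' hε'0 hAB
  obtain ⟨X2, hX2⟩ := h3 A E w1 (k.factorial + 2) ε' 1 (c / 6) (k + B1) hA1 hE1 hε'0 one_pos
    (by positivity) hAk
  obtain ⟨X3, hX3⟩ := h11 A E w1 ε' hA1 hE1 hε'0
  obtain ⟨X4, hX4⟩ := hDn A E w1 hA1 hE1 ε' hε'0
  obtain ⟨C, hC⟩ : ∃ C : ℝ, C = E * (4 * A * (1 + ε')) := ⟨_, rfl⟩
  refine ⟨δ' ^ 2 / 4, C, max X1 (max X2 (max X3 (max X4 3))), by positivity, fun X hX => ?_⟩
  rw [max_le_iff, max_le_iff, max_le_iff, max_le_iff] at hX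
  obtain ⟨a1, a2, a3, a4, a5⟩ := hX
  have hX3' : 3 ≤ X := by exact_mod_cast a5
  obtain ⟨s, b, T, N, w, p0, V, q, hS, hcnt⟩ := hX3 X a3
  have : NeZero N := ⟨hS.hN.ne_zero⟩
  obtain ⟨-, g2, g3, -, g5, gb, gs, g6, g7, -, -, -, -, -, g13, g14, g15⟩ :=
    hX2 X a2 s b T N w p0 V q hS
  have hMean := hX1 X a1 s b T N w p0 V q hS
  have hT1 : 1 ≤ T := by omega
  have hTM : T < N := by
    have h20 := hS.hN1
    have h21 : T ≤ E * T := Nat.le_mul_of_pos_left T hE1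
    have h22 : 2 * E * T = E * T + E * T := by ring
    omega
  have hEN : E < N := by
    have h20 := hS.hN1
    have h21 : E ≤ E * T := Nat.le_mul_of_pos_right E hT1
    have h22 : 2 * E * T = E * T + E * T := by ring
    omega
  have hfN : k.factorial < N := by omega
  have hbT : b ≤ T := by rw [hS.hT]; exact Nat.le_mul_of_pos_right b gs
  have hsT : s ≤ T := by rw [hS.hT]; exact Nat.le_mul_of_pos_left s gb
  have hX0 : (0 : ℝ) < X := Nat.cast_pos.2 (by omega)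
  have hq : ∀ j, (q j).Prime := fun j => (hS.hq j).1
  have hqw : ∀ j, q j ≤ w := fun j => (hS.hq j).2.1
  obtain ⟨m1, m2, m3⟩ := h4 T q hq hS.hqi N
  have hw0 : 0 ≤ Real.log (w : ℝ) := Real.log_natCast_nonneg w
  have hVpos : (0 : ℝ) < V := Nat.cast_pos.2 (by omega)
  have hlogV : 0 ≤ Real.log (V : ℝ) := Real.log_natCast_nonneg V
  have hlogX1 : 1 ≤ Real.log X := by
    have h50 : (3 : ℝ) ≤ X := by exact_mod_cast hX3'
    have h51 : Real.exp 1 ≤ X := Real.exp_one_lt_three.le.trans h50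
    exact (Real.le_log_iff_exp_le hX0).2 h51
  have hlogX : 0 < Real.log X := by linarith
  -- the narrow set
  have hspos : (0 : ℝ) < (s : ℝ) ^ b := pow_pos (Nat.cast_pos.2 (by omega)) b
  have hYc := h6 T N b s hS.hT hS.hN.two_le
  have hYne : (Yb T N b).Nonempty := by
    rw [← card_pos]
    have : (0 : ℝ) < ((Yb T N b).card : ℝ) := hspos.trans_le hYc
    exact_mod_cast this
  have hρ1 : 1 / ((Yb T N b).card : ℝ) ≤ 1 / (s : ℝ) ^ b :=
    one_div_le_one_div_of_le hspos hYc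
  have hρ2 : 1 / (N : ℝ) ^ T ≤ 1 / (s : ℝ) ^ b := by
    refine one_div_le_one_div_of_le hspos ?_
    have h60 : (s : ℝ) ≤ N := by exact_mod_cast hsT.trans hTM.le
    have h61 : (1 : ℝ) ≤ N := by exact_mod_cast hS.hN.one_le
    exact (pow_le_pow_left₀ (Nat.cast_nonneg s) h60 b).trans (pow_le_pow_right₀ h61 hbT)
  have hinj := (h5 T N 2 hS.hN.two_le).2 hS.hN
  -- the multipliers
  refine ⟨V, univ.image (fun x : Fin T → ZMod N => mltv q x), g6, univ_nonempty.image _, ?_, ?_⟩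
  · intro m hm
    obtain ⟨x, -, rfl⟩ := mem_image.1 hm
    have hm1 : 1 ≤ mltv q x := (m2 V g7 x).1
    refine ⟨hm1, ?_, ?_⟩
    · refine bsp_exp (Nat.one_le_iff_ne_zero.2 (Nat.mul_ne_zero (by omega) (by omega))) ?_
      have hmpos : (0 : ℝ) < (mltv q x : ℕ) := Nat.cast_pos.2 (by omega)
      rw [Nat.cast_mul, Real.log_mul hVpos.ne' hmpos.ne']
      have h70 := m3 w hqw x
      have h71 : (2 : ℝ) + 3 * ε' = 2 + ε := by rw [hε']; ring
      rw [h71] at g13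
      linarith
    · refine le_trans ?_ (hcnt x)
      refine mul_le_mul_of_nonneg_left (div_le_div_of_nonneg_right ?_ hlogX.le) (by norm_num)
      have htot : (0 : ℝ) < V.totient := Nat.cast_pos.2 (Nat.totient_pos.2 (by omega))
      have : (1 : ℝ) ≤ (V : ℝ) / V.totient := by
        rw [le_div_iff₀ htot, one_mul]
        exact_mod_cast Nat.totient_le V
      nlinarith
  · intro P hP
    have hP' : ∀ x : Fin T → ZMod N,
        δ * (((Icc 1 X).filter (fun b' => (V * b' * mltv q x + 1).Prime)).card : ℝ) ≤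
          (((Icc 1 X).filter (fun b' => (V * b' * mltv q x + 1).Prime ∧
            P (V * b' * mltv q x))).card : ℝ) := fun x => hP _ (mem_image_of_mem _ (mem_univ x))
    have hden := hX4 X a4 s b T N w p0 V q hS hcnt P hP'
    have hmaj := fun (b' : ℕ) (x : Fin T → ZMod N) => h13 P V κ T N q E X b' x g6 hκ0 hκ1 (by omega) hq
    have hsel := h10.1 X (fun b' => av (fun x : Fin T → ZMod N => fbv P V κ q E X b' x))
      (fun b' => av (fun x : Fin T → ZMod N => nuv V κ q X b' x)) δ' (by omega) hδ'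
      (fun b' => ⟨bsp_nonneg _ fun x => (hmaj b' x).1, bsp_mono _ _ fun x => (hmaj b' x).2.1⟩) hden
      (h8 J κ θ _ X T N V q (by omega) (by omega) hθ1 hρ2 hMean)
    have hgd := h9 k n0 M J κ θ _ η X T N V b q (by omega) hM (by omega) (by omega) hS.hN hfN hYne
      hρ1 hρ2 (by omega) hη hθ.le hMean
    rw [← hnS] at hgd
    have hgd' : (((Icc 1 X).filter (fun b' => ¬ (NLG (cf k k.factorial) η (Yb T N b)
        (fun x => nuv V κ q X b' x) ∧ WLE (fun ξ : Wd k M (Yb T N b) => vw k.factorial ξ) k n0 η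
          (fun x => nuv V κ q X b' x)))).card : ℝ) ≤
        δ' ^ 2 / 4 * X := hgd.trans (mul_le_mul_of_nonneg_right hθ2 hX0.le)
    -- the size of the set of the ratios
    obtain ⟨R, hR⟩ : ∃ R : ℕ, R = ⌈(Real.log X) ^ B1⌉₊ := ⟨_, rfl⟩
    have hBR : (Real.log X) ^ B ≤ (R : ℝ) := by
      rw [hR]
      exact (Real.rpow_le_rpow_of_exponent_le hlogX1 hB1B).trans (Nat.le_ceil _)
    have hR2 : (R : ℝ) ≤ 2 * (Real.log X) ^ B1 := by
      have h80 := (Nat.ceil_lt_add_one (Real.rpow_nonneg hlogX.le B1)).le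
      have h81 : (1 : ℝ) ≤ (Real.log X) ^ B1 := Real.one_le_rpow hlogX1 hB10
      rw [hR]
      linarith
    have hF : (Real.log X) ^ k * (R * (1 / (s : ℝ) ^ b)) < c := by
      have h90 : (Real.log X) ^ ((k : ℝ) + B1) = (Real.log X) ^ k * (Real.log X) ^ B1 := by
        rw [Real.rpow_add hlogX, Real.rpow_natCast]
      have h91 : (Real.log X) ^ k * (R * (1 / (s : ℝ) ^ b)) ≤
          2 * ((Real.log X) ^ ((k : ℝ) + B1) * (1 / (s : ℝ) ^ b)) := by
        rw [h90]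
        have h92 : 0 ≤ (Real.log X) ^ k * (1 / (s : ℝ) ^ b) := by positivity
        nlinarith
      have h93 : (Real.log X) ^ ((k : ℝ) + B1) * (1 / (s : ℝ) ^ b) ≤ c / 6 := by
        rw [mul_one_div, div_le_iff₀ hspos]
        exact g15
      linarith
    have hCL : ((E * b : ℕ) : ℝ) * Real.log w ≤ Real.log (Real.log X) * C := by
      rw [hC]
      push_cast
      have h95 := mul_le_mul_of_nonneg_left g14 (Nat.cast_nonneg E : (0 : ℝ) ≤ E)
      nlinarith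
    -- the good integers
    obtain ⟨Q, hQ⟩ : ∃ Q : ℕ → Prop, ∀ b', Q b' ↔
        ∃ m ∈ univ.image (fun x : Fin T → ZMod N => mltv q x),
          (Real.log X) ^ B ≤ ((rts P k C X (V * b' * m)).ncard : ℝ) := ⟨_, fun _ => Iff.rfl⟩
    have hsub : (Icc 1 X).filter (fun b' => δ' ≤ av (fun x : Fin T → ZMod N =>
        fbv P V κ q E X b' x)) ⊆
        ((Icc 1 X).filter Q) ∪
        (Icc 1 X).filter (fun b' => ¬ (NLG (cf k k.factorial) η (Yb T N b)
          (fun x => nuv V κ q X b' x) ∧ WLE (fun ξ : Wd k M (Yb T N b) => vw k.factorial ξ) k n0 η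
          (fun x => nuv V κ q X b' x))) := by
      intro b' hb'
      rw [mem_filter] at hb'
      obtain ⟨hbX, hav⟩ := hb'
      by_cases hgood : NLG (cf k k.factorial) η (Yb T N b) (fun x => nuv V κ q X b' x) ∧
          WLE (fun ξ : Wd k M (Yb T N b) => vw k.factorial ξ) k n0 η (fun x => nuv V κ q X b' x)
      swap
      · exact mem_union_right _ (mem_filter.2 ⟨hbX, hgood⟩)
      refine mem_union_left _ (mem_filter.2 ⟨hbX, (hQ b').2 ?_⟩)
      have hsum : δ' * (Fintype.card (Fin T → ZMod N) : ℝ) ≤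
          ∑ x : Fin T → ZMod N, fbv P V κ q E X b' x := by
        have h10 : δ' ≤ (∑ x : Fin T → ZMod N, fbv P V κ q E X b' x) /
          (Fintype.card (Fin T → ZMod N) : ℝ) := hav
        rwa [le_div_iff₀ (Nat.cast_pos.2 Fintype.card_pos)] at h10
      obtain ⟨m, hm, hav2⟩ := hRel (Fin T → ZMod N) (Yb T N b) hYne
        (fun x => nuv V κ q X b' x) (fun x => fbv P V κ q E X b' x)
        (fun x => ⟨(hmaj b' x).1, (hmaj b' x).2.1⟩) hgood.1 hgood.2 hsum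
      have : Nonempty (Yb T N b) := hYne.to_subtype
      obtain ⟨e, Dd, hDd, hDR⟩ : ∃ (e : Fin T → ZMod N) (Dd : Finset (Fin T → ZMod N)),
          (∀ d ∈ Dd, (∃ x : Fin k → Fin (k * n0 + 1) → Wd k M (Yb T N b),
            d = ∑ i, incE (fun ξ : Wd k M (Yb T N b) => vw k.factorial ξ) (mu k m i) (x i)) ∧
            ∀ i : ℕ, i < k → fbv P V κ q E X b' (e + i • d) ≠ 0) ∧ R < Dd.card := by
        obtain ⟨e, he⟩ := h14 k m (k * n0 + 1) R (Fin T → ZMod N) (Wd k M (Yb T N b))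
          (fun ξ : Wd k M (Yb T N b) => vw k.factorial ξ) (fun x => fbv P V κ q E X b' x)
          (Real.log X) c (1 / (s : ℝ) ^ b) (by omega) (by omega)
          (fun x => ⟨(hmaj b' x).1, (hmaj b' x).2.2⟩)
          (fun g => by
            refine le_trans (le_of_eq ?_) ((h7 k M k.factorial (Fin T → ZMod N) (Yb T N b) (by omega)
              hM hYne (hinj k.factorial hfac hfN) g).trans hρ1)
            congr 1
            funext ξ
            congr 1) hF hav2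
        obtain ⟨Dd, hDd, hDR⟩ := bsp_filter _ he
        exact ⟨e, Dd, hDd, hDR⟩
      refine ⟨mltv q e, mem_image_of_mem _ (mem_univ _), hBR.trans ?_⟩
      refine bsp_rts (κ := κ) h16 m1 hq hEN hqw hlogX hCL e Dd (fun d hd => ?_) hDR
      obtain ⟨⟨x, hx⟩, hne⟩ := hDd d hd
      have hkm' : k * (m + 1) * (k * M * k.factorial) ≤ E := by
        rw [hE]
        exact Nat.mul_le_mul_right _ (Nat.mul_le_mul_left k (by omega))
      have hdv := h15 T N b k m (k * n0 + 1) M E (by omega) hkm' hEN x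
      rw [← hx] at hdv
      exact ⟨hdv.1, hdv.2, hne⟩
    have hcard := (card_le_card hsub).trans (card_union_le _ _)
    have hcard' : (((Icc 1 X).filter (fun b' => δ' ≤ av (fun x : Fin T → ZMod N =>
        fbv P V κ q E X b' x))).card : ℝ) ≤
        (((Icc 1 X).filter Q).card : ℝ) +
        (((Icc 1 X).filter (fun b' => ¬ (NLG (cf k k.factorial) η (Yb T N b)
          (fun x => nuv V κ q X b' x) ∧ WLE (fun ξ : Wd k M (Yb T N b) => vw k.factorial ξ) k n0 η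
          (fun x => nuv V κ q X b' x)))).card : ℝ) := by
      exact_mod_cast hcard
    have hsel' : δ' ^ 2 / 2 * X ≤ (((Icc 1 X).filter (fun b' => δ' ≤ av (fun x : Fin T → ZMod N =>
        fbv P V κ q E X b' x))).card : ℝ) := by
      refine hsel.trans (le_of_eq ?_)
      congr 2
    have hfin : δ' ^ 2 / 4 * X ≤ (((Icc 1 X).filter Q).card : ℝ) := by linarith
    exact hfin.trans (le_of_eq (congrArg (fun t : Finset ℕ => (t.card : ℝ))
      (Finset.filter_congr fun b' _ => hQ b')))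

end Pool.Agent.Lib.MP_9f2731_nt.PL.Ap
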