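import Pool.Agent.Lib.MP_9f2731_nt.PL.Ap.Spec
import Pool.Agent.Lib.MP_9f2731_nt.QL.Aw.GnV

/-!
MP_9f2731_nt, PL/Ap, module Gnp: mean values over b of products of the majorant, general families.
-/

namespace Pool.Agent.Lib.MP_9f2731_nt.PL.Ap

open Finset
open Pool.Agent.Lib.MP_9f2731_nt.GP
open Pool.Agent.Lib.MP_9f2731_nt.GP.Rel
open Pool.Agent.Lib.MP_9f2731_nt.GP.Asm (eb)
open Pool.Agent.Lib.MP_9f2731_nt.QL
open Pool.Agent.Lib.MP_9f2731_nt.QL.Aw
open Pool.Agent.Lib.MP_9f2731_nt.PL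

open Pool.Agent.Lib.MP_9f2731_nt.QL.Aw.GnVAux in
theorem pGnp (h1 : CorVStmt) (h2 : MomVStmt) (h3 : MlVStmt) (h4 : GrpStmt)
    (h5 : SgpStmt) : GnpStmt := by
  have hCor := h1
  have hMom := h2
  have hMlV := h3
  have hGro := h4
  have hSgV := h5
  clear h1 h2 h3 h4 h5
  intro J hJ
  obtain ⟨κ, C1, hκ, hJκ, hC1, hcor⟩ := hCor J
  obtain ⟨C3, hC3, hmom⟩ := hMom J
  have hJ' : (1 : ℝ) ≤ J := by exact_mod_cast hJ
  refine ⟨κ, C3 + 1, hκ, by nlinarith, by linarith, ?_⟩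
  intro θ hθ
  have hη0 : 0 < θ / (4 * C1) := by positivity
  obtain ⟨w1, hw1⟩ := hSgV J C1 (θ / (4 * C1)) hC1 hη0
  obtain ⟨W, hW⟩ : ∃ W : ℕ, W = max (max 1 ⌈4 * C1 / θ⌉₊) w1 := ⟨_, rfl⟩
  have hW1 : 1 ≤ W := by rw [hW]; exact (le_max_left _ _).trans (le_max_left _ _)
  have hW2 : 4 * C1 / θ ≤ W := by
    rw [hW]
    exact (Nat.le_ceil _).trans (by exact_mod_cast (le_max_right _ _).trans (le_max_left _ _))
  have hW3 : w1 ≤ W := by rw [hW]; exact le_max_right _ _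
  refine ⟨W, ?_⟩
  intro A E hA hE ε hε
  obtain ⟨X1, hX1⟩ := hw1 A E hA hE ε hε W hW3
  have hA' : (1 : ℝ) ≤ A := by exact_mod_cast hA
  obtain ⟨X2, hX2⟩ := hGro A E W 3 ε 1 (min 1 (θ / (4 * C1))) (-1) hA hE hε one_pos
    (lt_min one_pos hη0) (by nlinarith)
  refine ⟨max (max X1 X2) (max C1 (Real.exp (max 1 ((J : ℝ) * C3 + 2)))), ?_⟩
  intro X hX s b0 T M w p0 V _ q hscl Y _ _ ι _ I ψ hI
  have hXa : X1 ≤ X := ((le_max_left _ _).trans (le_max_left _ _)).trans hX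
  have hXb : X2 ≤ X := ((le_max_right _ _).trans (le_max_left _ _)).trans hX
  have hXc : C1 ≤ X := ((le_max_left _ _).trans (le_max_right _ _)).trans hX
  have hXd : Real.exp (max 1 ((J : ℝ) * C3 + 2)) ≤ X :=
    ((le_max_right _ _).trans (le_max_right _ _)).trans hX
  have hXp : (0 : ℝ) < X := lt_of_lt_of_le (Real.exp_pos _) hXd
  have hLL : max 1 ((J : ℝ) * C3 + 2) ≤ Real.log X := (Real.le_log_iff_exp_le hXp).2 hXd
  have hL1 : 1 ≤ Real.log X := (le_max_left _ _).trans hLL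
  have hL2 : (J : ℝ) * C3 + 2 ≤ Real.log X := (le_max_right _ _).trans hLL
  have hX1' : 1 ≤ X := by exact_mod_cast hXp
  obtain ⟨g1, g2, g3, g4, g5, -, -, g6, g7, g8, g9, g10, -⟩ := hX2 X hXb s b0 T M w p0 V q hscl
  obtain ⟨m1, m2, -⟩ := hMlV T q (fun j => (hscl.hq j).1) hscl.hqi M
  have hsm := m2 V g7
  have hη1 : min 1 (θ / (4 * C1)) ≤ 1 := min_le_left _ _
  have hη2 : min 1 (θ / (4 * C1)) ≤ θ / (4 * C1) := min_le_right _ _
  have hL0 : 0 < Real.log X := by linarith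
  have hlog : (1 + Real.log V) ^ 6 ≤ Real.log X :=
    g10.trans (by nlinarith)
  have hcor' : ∀ S : Finset (Fin T → ZMod M), S.card ≤ J →
      |(∑ b ∈ Icc 1 X, ∏ m ∈ S.image (mltv q), nuV V ((X : ℝ) ^ κ) (V * b * m + 1)) / X - 1| ≤
        θ := by
    intro S hS
    have h1 := hcor X V W (S.image (mltv q)) hXc hW1 g6 g8 hlog (Finset.card_image_le.trans hS)
      (by
        intro m hm
        rw [Finset.mem_image] at hm
        obtain ⟨x, _, rfl⟩ := hm
        exact hsm x)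
    have h2 := hX1 X hXa s b0 T M w p0 V q hscl S hS
    refine h1.trans ?_
    have h3 : (1 + Real.log V) ^ 6 / Real.log X ≤ θ / (4 * C1) := by
      rw [div_le_iff₀ hL0]
      exact g10.trans (mul_le_mul_of_nonneg_right hη2 hL0.le)
    have hWp : (0 : ℝ) < W := by exact_mod_cast hW1
    have h4 : 1 / (W : ℝ) ≤ θ / (4 * C1) := by
      rw [div_le_div_iff₀ hWp (by positivity)]
      rw [div_le_iff₀ hθ] at hW2
      linarith
    calc C1 * ((1 + Real.log V) ^ 6 / Real.log X + 1 / (W : ℝ) +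
          (singV C1 V (Del (S.image (mltv q))) - 1))
        ≤ C1 * (θ / (4 * C1) + θ / (4 * C1) + θ / (4 * C1)) := by
          apply mul_le_mul_of_nonneg_left _ hC1.le
          linarith
      _ = 3 / 4 * θ := by field_simp; ring
      _ ≤ θ := by linarith
  have hpt := fun y => pointwise (V := V) (κ := κ) (q := q) (X := X) (M := M) hκ hθ hX1' hC3 hL1 hL2
    hcor' (fun x => hmom κ X V (mltv q x) hκ hJκ g1 g6 (hsm x).1) m1 I hI (fun i => ψ i y)
  have h1 : eb X (fun b => av (fun y => ∏ i ∈ I, nuv V κ q X b (ψ i y)))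
      = av (fun y => eb X (fun b => ∏ i ∈ I, nuv V κ q X b (ψ i y))) :=
    eb_av X (fun b y => ∏ i ∈ I, nuv V κ q X b (ψ i y))
  rw [h1]
  have h2 : av (fun y => θ + (Real.log X) ^ (C3 + 1)
          * ∑ i ∈ I, ∑ i' ∈ I.erase i, (if ψ i y = ψ i' y then (1 : ℝ) else 0))
      = θ + (Real.log X) ^ (C3 + 1) *
          ∑ i ∈ I, ∑ i' ∈ I.erase i, av (fun y => if ψ i y = ψ i' y then (1 : ℝ) else 0) := by
    rw [av_add, av_const, av_mul, av_sum]
    simp only [av_sum]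
  rw [← h2, abs_le]
  constructor
  · have h3 : av (fun y => -(θ + (Real.log X) ^ (C3 + 1)
          * ∑ i ∈ I, ∑ i' ∈ I.erase i, (if ψ i y = ψ i' y then (1 : ℝ) else 0)) + 1)
        ≤ av (fun y => eb X (fun b => ∏ i ∈ I, nuv V κ q X b (ψ i y))) := by
      refine av_mono fun y => ?_
      have := (abs_le.1 (hpt y)).1
      linarith
    have h4 : ∀ g : Y → ℝ, av (fun y => -(g y) + 1) = -av g + 1 := by
      intro g
      rw [av_add, av_const]
      have : av (fun y => -g y) = -av g := by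
        have := av_mul (-1) g
        simpa using this
      rw [this]
    rw [h4] at h3
    linarith
  · have h3 : av (fun y => eb X (fun b => ∏ i ∈ I, nuv V κ q X b (ψ i y)))
        ≤ av (fun y => (θ + (Real.log X) ^ (C3 + 1)
          * ∑ i ∈ I, ∑ i' ∈ I.erase i, (if ψ i y = ψ i' y then (1 : ℝ) else 0)) + 1) := by
      refine av_mono fun y => ?_
      have := (abs_le.1 (hpt y)).2
      linarith
    rw [av_add _ (fun _ => (1 : ℝ)), av_const] at h3
    linarith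

end Pool.Agent.Lib.MP_9f2731_nt.PL.Ap
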