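import Pool.Agent.Lib.MP_9f2731_nt.PL.Defs
import Pool.Agent.Lib.MP_9f2731_nt.QL.Aw.Spec

/-!
MP_9f2731_nt, THEOREM PL (helper9), chapter Ap: assembly, RelPStmt → CorVStmt → MomVStmt → ApVStmt → MainPStmt. Rules: a
module `X.lean` in this directory starts with `import Pool.Agent.Lib.MP_9f2731_nt.PL.Ap.Spec`, `namespace
Pool.Agent.Lib.MP_9f2731_nt.PL.Ap`, `open Finset`, `open Pool.Agent.Lib.MP_9f2731_nt.GP
Pool.Agent.Lib.MP_9f2731_nt.GP.Rel Pool.Agent.Lib.MP_9f2731_nt.QL Pool.Agent.Lib.MP_9f2731_nt.QL.Aw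
Pool.Agent.Lib.MP_9f2731_nt.PL`, `open Pool.Agent.Lib.MP_9f2731_nt.GP.Asm (eb)` and proves the theorem `pX`. Statements
under Uses are hypotheses, in this order. All modules are independent. Nearly all modules are adaptations of the proved
files of QL/Aw named in the docstrings (copy and adapt). eb is GP.Asm.eb (mean over the integers in [1, X]).
Notation of the proofs: L = log log X, l = log L = log log log X, G = Fin T → ZMod N.
-/

namespace Pool.Agent.Lib.MP_9f2731_nt.PL.Ap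

open Finset
open Pool.Agent.Lib.MP_9f2731_nt.GP
open Pool.Agent.Lib.MP_9f2731_nt.GP.Rel
open Pool.Agent.Lib.MP_9f2731_nt.GP.Asm (eb)
open Pool.Agent.Lib.MP_9f2731_nt.QL
open Pool.Agent.Lib.MP_9f2731_nt.QL.Aw
open Pool.Agent.Lib.MP_9f2731_nt.PL

/-- the narrow set: the 0/1 vectors with b ones -/
def Yb (T N b : ℕ) [NeZero N] : Finset (Fin T → ZMod N) :=
  univ.filter (fun x => (∀ j, (x j).val ≤ 1) ∧ ∑ j, (x j).val = b)

/-- the scale data -/
structure SclP (A E w1 : ℕ) (ε : ℝ) (X s b T N w p0 V : ℕ) (q : Fin T → ℕ) : Prop where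
  hs : s = ⌈(Real.log (Real.log X)) ^ ε⌉₊
  hb : b = ⌈(A : ℝ) * Real.log (Real.log X) / Real.log (Real.log (Real.log X))⌉₊
  hT : T = b * s
  hN : N.Prime
  hN1 : 2 * E * T < N
  hN2 : N ≤ 4 * E * T
  hw : w = ⌊(Real.log (Real.log X)) ^ (2 + 2 * ε)⌋₊
  hp : p0.Prime
  hp1 : w1 < p0
  hV : V = ∏ p ∈ (range (w + 1)).filter (fun p => p.Prime ∧ p ≠ p0), p
  hq : ∀ j, (q j).Prime ∧ q j ≤ w ∧ q j ≠ p0
  hqi : Function.Injective q

/-! ### Sizes -/

/-- Module Grp (growth; compare QL/Aw/Gro.lean). Uses: nothing. Proof. L, l → ∞ as X → ∞, l = o(L^ε) etc. L^ε ≤ s ≤ L^ε + 1 ≤ 2 L^ε. A L/l ≤ b ≤ A L/l + 1 ≤ 2 A L/l. b, s ≥ 1. L^(2+2ε)/2 ≤ w ≤ L^(2+2ε), log w ≤ (2+2ε) l. T = b s ≤ 4 A L^(1+ε)/l, N ≤ 4 E T: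
T N ≤ 4 E T^2 ≤ 64 E A^2 L^(2+2ε)/l^2 ≤ η L^(2+2ε)/2 ≤ η w. V divides the primorial of w (≤ 4^w): log V ≤ 2 w ≤ 2 L^(2+2ε), V ≥ 1. log V + T N log w ≤ 2 L^(2+2ε) + 64 E A^2 (2+2ε) L^(2+2ε)/l ≤ 3 L^(2+2ε) ≤ min(L^(2+3ε), e^(ε1 L)). (1 + 2 L^(2+2ε))^6 ≤ η e^L. b log w ≤ (2 A L/l) (2+2ε) l = 4 A (1+ε) L.
s^b ≥ (L^ε)^(A L/l) = e^(ε A L) ≥ e^((B+1) L), so (log X)^B = e^(B L) ≤ e^(-L) s^b ≤ η s^b. K0 ≤ T (T ≥ b ≥ A L/l). N > 2 E T ≥ T. The primes q j divide V (q j ≤ w, q j ≠ p0), the primes p ≤ w1 divide V for w1 ≤ w (p < p0). -/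
def GrpStmt : Prop :=
  ∀ (A E w1 K0 : ℕ) (ε ε1 η B : ℝ), 1 ≤ A → 1 ≤ E → 0 < ε → 0 < ε1 → 0 < η → B + 1 ≤ A * ε → ∃ X0 : ℝ, ∀ X : ℕ,
    X0 ≤ X → ∀ (s b T N w p0 V : ℕ) (q : Fin T → ℕ), SclP A E w1 ε X s b T N w p0 V q →
    K0 ≤ X ∧ (K0 : ℝ) ≤ Real.log (Real.log X) ∧ K0 ≤ T ∧ w1 ≤ w ∧ K0 ≤ w ∧ 1 ≤ b ∧ 1 ≤ s ∧ 1 ≤ V ∧ (∀ j, q j ∣ V) ∧
    (∀ p : ℕ, p.Prime → p ≤ w1 → p ∣ V) ∧ (∀ p : ℕ, p.Prime → p ≤ w → p ≠ p0 → p ∣ V) ∧
    (1 + Real.log V) ^ 6 ≤ η * Real.log X ∧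
    (T : ℝ) * N ≤ η * w ∧
    Real.log V + T * N * Real.log w ≤ (Real.log X) ^ ε1 ∧
    Real.log V + T * N * Real.log w ≤ (Real.log (Real.log X)) ^ (2 + 3 * ε) ∧
    (b : ℝ) * Real.log w ≤ 4 * A * (1 + ε) * Real.log (Real.log X) ∧
    (Real.log X) ^ B ≤ η * (s : ℝ) ^ b

/-- Module Sgp (copy of QL/Aw/SgV.lean). Uses: MlVStmt, Grp. Proof. w1 ≥ 4 C/η + 1. Grp with K0 = 2, B = -1, ε1 = 1 and η replaced by η' = η/(4 C (J^2+1)). η ≤ 1 WLOG. S' = image, card ≤ J. Δ = Del S' is a product of at most J^2 positive differences, each ≤ max m, so log Δ ≤ J^2 T N log w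
(MlV; w ≥ 2). A prime p ∣ Δ, not dividing V, is p0 or > w. The number of the p ∣ Δ with p > w is at most log Δ/log w ≤ J^2 T N. So the sum of C/p over the p ∣ Δ not dividing V is ≤ C/w1 + C J^2 T N/w ≤ η/4 + η/4, and ∏ (1 + C/p) ≤ exp(∑ C/p) ≤ exp(η/2) ≤ 1 + η. -/
def SgpStmt : Prop :=
  ∀ (J : ℕ) (C η : ℝ), 0 < C → 0 < η → ∃ w1 : ℕ, ∀ A E : ℕ, 1 ≤ A → 1 ≤ E → ∀ ε : ℝ, 0 < ε → ∀ w2 : ℕ, w1 ≤ w2 →
    ∃ X0 : ℝ, ∀ X : ℕ, X0 ≤ X → ∀ (s b T N w p0 V : ℕ) [NeZero N] (q : Fin T → ℕ),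
    SclP A E w2 ε X s b T N w p0 V q →
    ∀ S : Finset (Fin T → ZMod N), S.card ≤ J → singV C V (Del (S.image (mltv q))) - 1 ≤ η

/-! ### Mean values over the integers in [1, X] -/

/-- Module Gnp (copy of QL/Aw/GnV.lean). Uses: CorVStmt, MomVStmt, MlVStmt, Grp, Sgp. Proof. κ, C1 from CorV for J (2 J κ ≤ 1, so κ ≤ 1/2), C3 from MomV for J, C2 = C3 + 1. Given θ: w1 = the maximum of 1, ⌈4 C1/θ⌉ and the w1 of Sgp for (J, C1, θ/(4 C1)) (Sgp with w2 = w1).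
eb and av commute, so it is enough to prove for every y: |eb ∏_{i ∈ I} nuv (ψ i y) - 1| ≤ θ + L'^C2 ∑ ∑ [ψ i y = ψ i' y], L' = log X. (a) If ψ · y is injective on I, so is i ↦ mltv q (ψ i y) (MlV), S = the image of I, the product is ∏_{m ∈ S} nuV(V b m + 1), SmV V m by MlV and Grp. CorV with w = w1
(all primes ≤ w1 divide V): ≤ C1 ((1 + log V)^6/log X + 1/w1 + singV - 1) ≤ θ/4 + θ/4 + θ/4 (Grp with η = min 1 (θ/(4 C1)), B = -1). (b) Otherwise the double sum is ≥ 1. AM-GM: ∏_{i∈I} nu_i ≤ (1/n) ∑ nu_i^n, n = card I, 1 ≤ n ≤ J, nu^n ≤ 1 + nu^J, so eb ∏ ≤ 1 + C3 L'^C3 by MomV, and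
|eb ∏ - 1| ≤ 2 + C3 L'^C3 ≤ L'^C2 for X large. -/
def GnpStmt : Prop :=
  ∀ J : ℕ, 1 ≤ J → ∃ κ C2 : ℝ, 0 < κ ∧ κ < 1 ∧ 0 < C2 ∧ ∀ θ : ℝ, 0 < θ → ∃ w1 : ℕ, ∀ A E : ℕ, 1 ≤ A → 1 ≤ E →
    ∀ ε : ℝ, 0 < ε → ∃ X0 : ℝ, ∀ X : ℕ, X0 ≤ X → ∀ (s b T N w p0 V : ℕ) [NeZero N] (q : Fin T → ℕ),
    SclP A E w1 ε X s b T N w p0 V q →
    ∀ (Y : Type) [Fintype Y] [Nonempty Y] (ι : Type) [DecidableEq ι] (I : Finset ι)
      (ψ : ι → Y → (Fin T → ZMod N)), I.card ≤ J →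
    |eb X (fun b' => av (fun y => ∏ i ∈ I, nuv V κ q X b' (ψ i y))) - 1| ≤
      θ + (Real.log X) ^ C2 *
        ∑ i ∈ I, ∑ i' ∈ I.erase i, av (fun y => if ψ i y = ψ i' y then (1 : ℝ) else 0)

/-- mean values over families with few coincidences (proportion at most ρ) are near 1 in mean square -/
def MeanP (J : ℕ) (κ θ ρ : ℝ) (X N V : ℕ) {T : ℕ} (q : Fin T → ℕ) : Prop :=
  ∀ (W Z ι : Type) [Fintype W] [Nonempty W] [Fintype Z] [Nonempty Z] [DecidableEq ι] (I : Finset ι)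
    (ψ : ι → W → Z → (Fin T → ZMod N)), 2 * I.card ≤ J →
    (∀ i ∈ I, ∀ i' ∈ I, i ≠ i' →
      av (fun y : W × Z => if ψ i y.1 y.2 = ψ i' y.1 y.2 then (1 : ℝ) else 0) ≤ ρ) →
    (∀ i ∈ I, ∀ i' ∈ I,
      av (fun y : W × Z × Z => if ψ i y.1 y.2.1 = ψ i' y.1 y.2.2 then (1 : ℝ) else 0) ≤ ρ) →
    eb X (fun b' => av (fun e : W => (av (fun z : Z => ∏ i ∈ I, nuv V κ q X b' (ψ i e z)) - 1) ^ 2)) ≤ θ

/-- Module Msp (compare QL/Aw/MsV.lean, GP/Asm/Lf2.lean). Uses: Gnp, Grp. Proof. κ, C2 from Gnp, B0 = C2 + 1. Gnp with θ/8. ρ = 1/s^b. Grp with B = C2, η = θ/(8 J^2): (log X)^C2 ρ ≤ θ/(8 J^2). (1) Y = W × Z, I, ψ i (e,z): |M1 - 1| ≤ θ/8 + (log X)^C2 J^2 ρ ≤ θ/4.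
(2) Y = W × Z × Z, index type Bool × ι, I' = univ ×ˢ I (card ≤ J), ψ (false,i) y = ψ i y.1 y.2.1, ψ (true,i) y = ψ i y.1 y.2.2: collisions in the same copy have the mean of the first hypothesis, collisions of different copies that of the second: |M2 - 1| ≤ θ/4.
eb av_e (F_b(e) - 1)^2 = M2 - 2 M1 + 1 ≤ 3θ/4, because F_b(e)^2 = av over Z × Z of the double product. -/
def MspStmt : Prop :=
  ∀ J : ℕ, 1 ≤ J → ∃ κ B0 : ℝ, 0 < κ ∧ κ < 1 ∧ ∀ θ : ℝ, 0 < θ → ∃ w1 : ℕ, ∀ A E : ℕ, 1 ≤ A → 1 ≤ E →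
    ∀ ε : ℝ, 0 < ε → B0 ≤ A * ε → ∃ X0 : ℝ, ∀ X : ℕ, X0 ≤ X → ∀ (s b T N w p0 V : ℕ) [NeZero N] (q : Fin T → ℕ),
    SclP A E w1 ε X s b T N w p0 V q → MeanP J κ θ (1 / (s : ℝ) ^ b) X N V q

/-! ### Coincidences -/

/-- Module Vwc (values of wide elements). Uses: nothing. Proof. The component p0 = (0,0) of ξ occurs in vw D ξ with the coefficient D / 1 = D. For fixed other components the equation D • u + rest = g has at most one solution u in G, so at most one in Y. Mean over one component: av g = av av g (update ..), GP.Rel.pUpd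
(import Pool.Agent.Lib.MP_9f2731_nt.GP.Rel.Upd). -/
def VwcStmt : Prop :=
  ∀ (k M D : ℕ) (G : Type) [AddCommGroup G] [DecidableEq G] (Y : Finset G), 1 ≤ k → 1 ≤ M → Y.Nonempty →
    Function.Injective (fun x : G => D • x) → ∀ g : G,
    av (fun ξ : Wd k M Y => if vw D ξ = g then (1 : ℝ) else 0) ≤ 1 / Y.card

/-- Module Cwp (wide forms; compare QL/Aw/Cwg.lean). Uses: Vwc. Proof. As in QL/Aw/Cwg: p = (j,σ), p' = (j',σ'). First: if j = j', there is a vertex i with σ i ≠ σ' i, and i ≠ j (both are false at j); the variable (i,σ i) occurs on the left with coefficient i - j ≠ 0, not on the right. If j ≠ j': the variable (j,σ' j) occurs on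
the right with coefficient j - j' ≠ 0; on the left the vertex j has coefficient 0. Second: choose i ≠ j; the variable (i,σ i) of the first copy occurs on the left with coefficient i - j, not on the right. In all cases vary the entry t = 0 of this variable (it occurs in incE with coefficient 1: mu k m i ≥ 1, K ≥ 1): for fixed other
entries the equation is a • vl u = g with 1 ≤ |a| < k and u : Wd k M Y, and |a| • is injective on G, so it is vl u = g' or has no solution: proportion ≤ 1/card Y by Vwc. -/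
def CwpStmt : Prop :=
  ∀ (k : ℕ) (G : Type) [AddCommGroup G] [Fintype G] [DecidableEq G] (Y : Finset G) (m K M : ℕ), 2 ≤ k →
    Y.Nonempty → 1 ≤ K → 1 ≤ M → (∀ n : ℕ, 1 ≤ n → n ≤ k.factorial → Function.Injective (fun x : G => n • x)) →
    ∀ p p' : Fin k × (Fin k → Bool), p.2 p.1 = false → p'.2 p'.1 = false →
    (p ≠ p' → av (fun x : Fin k × Bool → Fin K → Wd k M Y =>
      if frE (fun ξ : Wd k M Y => vw k.factorial ξ) m p.1 (pk p.2 x) =
        frE (fun ξ : Wd k M Y => vw k.factorial ξ) m p'.1 (pk p'.2 x) then (1 : ℝ) else 0) ≤ 1 / Y.card) ∧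
    av (fun y : (Fin k × Bool → Fin K → Wd k M Y) × (Fin k × Bool → Fin K → Wd k M Y) =>
      if frE (fun ξ : Wd k M Y => vw k.factorial ξ) m p.1 (pk p.2 y.1) =
        frE (fun ξ : Wd k M Y => vw k.factorial ξ) m p'.1 (pk p'.2 y.2) then (1 : ℝ) else 0) ≤ 1 / Y.card

/-- Module Cnp (narrow forms; compare QL/Aw/Cng.lean). Uses: nothing. Proof. First: a with ω a ≠ ω' a; the variable (a, ω a) occurs on the left only, with coefficient c a: at most one value in Y. Second: for fixed other variables the equation determines z.1.1 ∈ G. -/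
def CnpStmt : Prop :=
  ∀ (r : ℕ) (c : Fin r → ℤ) (G : Type) [AddCommGroup G] [Fintype G] [DecidableEq G] (Y : Finset G), Y.Nonempty →
    (∀ a, Function.Injective (fun x : G => c a • x)) → ∀ ω ω' : Fin r → Bool,
    (ω ≠ ω' → av (fun z : G × (Fin r × Bool → Y) =>
      if z.1 + ∑ a, c a • ((z.2 (a, ω a) : Y) : G) = z.1 + ∑ a, c a • ((z.2 (a, ω' a) : Y) : G)
        then (1 : ℝ) else 0) ≤ 1 / Y.card) ∧
    av (fun z : (G × (Fin r × Bool → Y)) × (G × (Fin r × Bool → Y)) =>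
      if z.1.1 + ∑ a, c a • ((z.1.2 (a, ω a) : Y) : G) = z.2.1 + ∑ a, c a • ((z.2.2 (a, ω' a) : Y) : G)
        then (1 : ℝ) else 0) ≤ 1 / Fintype.card G

/-- Module Yc (size of the narrow set). Uses: nothing. Proof. For g : Fin b → Fin s the 0/1 vector with ones at the b positions finProdFinEquiv (u, g u) (or u s + g u), u < b, is in Yb (T = b s; val of 0 and 1 in ZMod N is 0 and 1 since N ≥ 2), different g give different vectors. So card ≥ s^b. -/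
def YcStmt : Prop :=
  ∀ (T N b s : ℕ) [NeZero N], T = b * s → 2 ≤ N → (s : ℝ) ^ b ≤ ((Yb T N b).card : ℝ)

/-! ### Linear forms conditions for most integers -/

/-- Module Nwa (narrow; compare QL/Aw/NwA.lean). Uses: Cnp, BoxStmt (of QL.Aw, its second part: n • is injective for 1 ≤ n < N, N prime). Proof. MeanP with W = Unit, Z = G × (Fin (k + k) × Bool → Yb T N b), ι = Fin (k + k) → Bool, I = A (card ≤ 2^(k+k)), ψ ω _ z = z.1 + ∑ cf a • z.2 (a, ω a). The two hypotheses: Cnp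
(cf a = ± k! with k! < N, so cf a • is injective; card G = N^T). Means over Unit × Z and Unit × Z × Z are means over Z and Z × Z; av over Unit is the value. -/
def NwaStmt : Prop :=
  ∀ (k J : ℕ) (κ θ ρ : ℝ) (X T N V b : ℕ) [NeZero N] (q : Fin T → ℕ), 2 * 2 ^ (k + k) ≤ J → N.Prime →
    k.factorial < N → (Yb T N b).Nonempty → 1 / ((Yb T N b).card : ℝ) ≤ ρ → 1 / (N : ℝ) ^ T ≤ ρ →
    MeanP J κ θ ρ X N V q → ∀ A : Finset (Fin (k + k) → Bool),
    eb X (fun b' => (av (fun z : (Fin T → ZMod N) × (Fin (k + k) × Bool → Yb T N b) =>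
      ∏ ω ∈ A, nuv V κ q X b' (z.1 + ∑ a, cf k k.factorial a • ((z.2 (a, ω a) : Yb T N b) : Fin T → ZMod N))) -
        1) ^ 2) ≤ θ

/-- Module Nwb (wide; compare QL/Aw/NwB.lean). Uses: Cwp, BoxStmt (of QL.Aw). Proof. MeanP with W = G, Z = Fin k × Bool → Fin K → Wd k M Y, ι = Fin k × (Fin k → Bool), I = S (card ≤ k 2^k), ψ p e x = e + frE m p.1 (pk p.2 x). The base point e cancels in the equations, so the two hypotheses follow from Cwp (mean over e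
trivial) and 1/card Y ≤ ρ; n • is injective for n ≤ k! < N. -/
def NwbStmt : Prop :=
  ∀ (k K J m M : ℕ) (κ θ ρ : ℝ) (X T N V b : ℕ) [NeZero N] (q : Fin T → ℕ), 2 ≤ k → 1 ≤ K → 1 ≤ M →
    2 * (k * 2 ^ k) ≤ J → N.Prime → k.factorial < N → (Yb T N b).Nonempty →
    1 / ((Yb T N b).card : ℝ) ≤ ρ → MeanP J κ θ ρ X N V q →
    ∀ S : Finset (Fin k × (Fin k → Bool)), (∀ p ∈ S, p.2 p.1 = false) →
    eb X (fun b' => av (fun e : Fin T → ZMod N => (av (fun x : Fin k × Bool → Fin K → Wd k M (Yb T N b) =>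
      ∏ p ∈ S, nuv V κ q X b' (e + frE (fun ξ : Wd k M (Yb T N b) => vw k.factorial ξ) m p.1 (pk p.2 x))) -
        1) ^ 2)) ≤ θ

/-- Module Nwc (second moment; compare QL/Aw/NwC.lean). Uses: nothing. Proof. MeanP with W = Unit, Z = G, ι = Unit, I = univ, ψ _ _ x = x: the first hypothesis is empty, the second has mean 1/card G = N^(-T) ≤ ρ. So eb (a - 1)^2 ≤ θ for a = av ν_b, and a^2 ≤ 3/2 + 3 (a-1)^2, so eb a^2 ≤ 3/2 + 3θ ≤ 2 (X ≥ 1). -/
def NwcStmt : Prop :=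
  ∀ (J : ℕ) (κ θ ρ : ℝ) (X T N V : ℕ) [NeZero N] (q : Fin T → ℕ), 2 ≤ J → 1 ≤ X → θ ≤ 1 / 6 →
    1 / (N : ℝ) ^ T ≤ ρ → MeanP J κ θ ρ X N V q →
    eb X (fun b' => (av (fun x : Fin T → ZMod N => nuv V κ q X b' x)) ^ 2) ≤ 2

open Classical in
/-- Module Gdp (linear forms conditions for most integers; compare QL/Aw/Gdb.lean). Uses: Nwa, Nwb, GP.Asm.SelStmt. Proof. If NLG fails at b', there is an A with |mean - 1| > η, square > η^2; Markov (Sel, second part, t = η^2) for each of the 2^(2^(k+k)) sets A: at most X θ/η^2 of the b'. If WLE fails there are m < n0 and S with av_e |F(e) - 1| > η, so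
av_e (F(e) - 1)^2 ≥ (av_e |F(e) - 1|)^2 > η^2 (Cauchy-Schwarz); Markov for the n0 2^(k 2^k) pairs (m,S) (card (Fin k × (Fin k → Bool)) = k 2^k). -/
def GdpStmt : Prop :=
  ∀ (k n0 M J : ℕ) (κ θ ρ η : ℝ) (X T N V b : ℕ) [NeZero N] (q : Fin T → ℕ), 2 ≤ k → 1 ≤ M → 2 * (k * 2 ^ k) ≤ J →
    2 * 2 ^ (k + k) ≤ J → N.Prime → k.factorial < N → (Yb T N b).Nonempty →
    1 / ((Yb T N b).card : ℝ) ≤ ρ → 1 / (N : ℝ) ^ T ≤ ρ → 1 ≤ X → 0 < η → 0 ≤ θ → MeanP J κ θ ρ X N V q →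
    (((Icc 1 X).filter (fun b' => ¬ (NLG (cf k k.factorial) η (Yb T N b) (fun x => nuv V κ q X b' x) ∧
      WLE (fun ξ : Wd k M (Yb T N b) => vw k.factorial ξ) k n0 η (fun x => nuv V κ q X b' x)))).card : ℝ) ≤
      (2 ^ (2 ^ (k + k)) + n0 * 2 ^ (k * 2 ^ k)) * (θ / η ^ 2) * X

/-! ### Primes -/

/-- Module Scp (existence of the scale data; compare QL/Aw/Sce.lean). Uses: ApVStmt, PrcStmt, MlVStmt, Grp. Proof. X large. ε1 and p0 (for w1) from ApV. s, b, T, w as in SclP, N by Bertrand (Nat.exists_prime_lt_and_le_two_mul for 2 E T ≥ 1: 2 E T < N ≤ 4 E T), V as in SclP. The number of primes ≤ w different from p0 is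
≥ sqrt w - 1 ≥ T (Prc; w ≥ L^(2+2ε) - 1, T ≤ (A L/l + 1)(L^ε + 1) ≤ L^(1+ε)/2 for l large), so there is an injective q : Fin T → those primes. SclP holds. For x: Q = V mltv q x is not divisible by p0 (V and mltv are products of primes different from p0), log Q ≤ log V + T N log w ≤ (log X)^ε1 (Grp), so ApV gives
(1/4) (Q/φ(Q)) X/log X, and Q/φ(Q) = V/φ(V) because Q and V have the same prime factors. V * b' * m = (V m) b'. -/
def ScpStmt : Prop :=
  ∀ (A E w1 : ℕ) (ε : ℝ), 1 ≤ A → 1 ≤ E → 0 < ε → ∃ X0 : ℝ, ∀ X : ℕ, X0 ≤ X →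
    ∃ (s b T N w p0 V : ℕ) (q : Fin T → ℕ),
    SclP A E w1 ε X s b T N w p0 V q ∧ ∀ x : Fin T → ZMod N,
      (1 / 4 : ℝ) * (((V : ℝ) / V.totient) * X / Real.log X) ≤
        (((Icc 1 X).filter (fun b' => (V * b' * mltv q x + 1).Prime)).card : ℝ)

open Classical in
/-- Module Dnp (density; compare QL/Aw/DnV.lean). Uses: Grp. Proof. δ' = 3 κ δ/128. v0 = (φ(V)/V) κ log X (3/4). Let x have (x j).val + E < N for all j: eb (fun b' => fbv b' x) ≥ v0 (δ (1/4)(V/φ(V)) X/log X - X^κ)/X ≥ (3/16) κ δ - κ log X X^(κ-1) ≥ (3/32) κ δ for X large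
(at most X^κ of the b' are ≤ X^κ; φ(V)/V ≤ 1). The proportion of these x in G is ((N - E)/N)^T ≥ 1 - T E/N ≥ 1/2 (Bernoulli, one_add_mul_le_pow; N > 2 E T; the number of z in ZMod N with z.val + E < N is N - E). Exchange eb and av. -/
def DnpStmt : Prop :=
  ∀ κ δ : ℝ, 0 < κ → κ < 1 → 0 < δ → ∃ δ' : ℝ, 0 < δ' ∧ ∀ A E w1 : ℕ, 1 ≤ A → 1 ≤ E → ∀ ε : ℝ, 0 < ε →
    ∃ X0 : ℝ, ∀ X : ℕ, X0 ≤ X → ∀ (s b T N w p0 V : ℕ) [NeZero N] (q : Fin T → ℕ),
    SclP A E w1 ε X s b T N w p0 V q →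
    (∀ x : Fin T → ZMod N, (1 / 4 : ℝ) * (((V : ℝ) / V.totient) * X / Real.log X) ≤
      (((Icc 1 X).filter (fun b' => (V * b' * mltv q x + 1).Prime)).card : ℝ)) →
    ∀ P : ℕ → Prop,
    (∀ x : Fin T → ZMod N, δ * (((Icc 1 X).filter (fun b' => (V * b' * mltv q x + 1).Prime)).card : ℝ) ≤
      (((Icc 1 X).filter (fun b' => (V * b' * mltv q x + 1).Prime ∧ P (V * b' * mltv q x))).card : ℝ)) →
    2 * δ' ≤ eb X (fun b' => av (fun x : Fin T → ZMod N => fbv P V κ q E X b' x))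

/-! ### Extraction -/

open Classical in
/-- Module Dgp (many differences). Uses: nothing. Proof. frE m j x = frE m (k-1) x + (k-1-j) • d(x), d(x) = ∑ incE (mu k m i) (x i) (frE m j - frE m (j+1) = d). For fixed x substitute e' = e + frE m (k-1) x (a bijection of G): the right side is the mean over x and e' of ∏_{i<k} f(e' + i • d(x)) (i = k-1-j, Fin.rev). Let D_e be the
set of the statement (the filter). The product vanishes unless d(x) ∈ D_e, and it is ≤ F^k. If card D_e ≤ R for all e, the mean is ≤ F^k max_e (proportion of the x with d(x) ∈ D_e) ≤ F^k R max_g (proportion of the x with d(x) = g), and with all entries fixed except the entry 0 of the vertex 0 (it occurs in d with coefficient 1: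
mu ≥ 1, K ≥ 1, k ≥ 1) d(x) = g says that vl of this entry is a given element: proportion ≤ ρ. So c ≤ F^k R ρ < c, contradiction. (Mean over one entry: GP.Rel.pUpd, used for the vertex and for the entry.) -/
def DgpStmt : Prop :=
  ∀ (k m K R : ℕ) (G : Type) [AddCommGroup G] [Fintype G] (E : Type) [Fintype E] [Nonempty E] (vl : E → G)
    (f : G → ℝ) (F c ρ : ℝ), 1 ≤ k → 1 ≤ K → (∀ x, 0 ≤ f x ∧ f x ≤ F) →
    (∀ g : G, av (fun ξ : E => if vl ξ = g then (1 : ℝ) else 0) ≤ ρ) → F ^ k * (R * ρ) < c →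
    c ≤ av (fun e : G => av (fun x : Fin k → Fin K → E => ∏ j : Fin k, f (e + frE vl m j x))) →
    ∃ e : G, R < (univ.filter (fun d : G => (∃ x : Fin k → Fin K → E, d = ∑ i, incE vl (mu k m i) (x i)) ∧
      ∀ i : ℕ, i < k → f (e + i • d) ≠ 0)).card

/-- Module Dvp (size of the differences). Uses: nothing. Proof. For y ∈ Yb every coordinate has val ≤ 1 and the sum of the val's is b. vw k! ξ is the sum over p of (k! / (c+1)) • ξ p: the natural number C_t(ξ) = ∑_p (k!/(c+1)) (ξ p t).val is ≤ k M k!, ∑_t C_t(ξ) ≤ k M k! b, and vw k! ξ at t is the class of C_t(ξ). The sum of the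
incE's uses at most (k m + 1) + (k - 1) = k (m+1) entries. So the coordinate t of the difference is the class of a natural number C_t ≤ k (m+1) (k M k!) ≤ K' < N, hence val = C_t, and ∑_t C_t ≤ k (m+1) (k M k!) b ≤ K' b. -/
def DvpStmt : Prop :=
  ∀ (T N b k m K M K' : ℕ) [NeZero N], 1 ≤ k → k * (m + 1) * (k * M * k.factorial) ≤ K' → K' < N →
    ∀ x : Fin k → Fin K → Wd k M (Yb T N b),
    (∀ t, ((∑ i, incE (fun ξ : Wd k M (Yb T N b) => vw k.factorial ξ) (mu k m i) (x i)) t).val ≤ K') ∧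
    ∑ t, ((∑ i, incE (fun ξ : Wd k M (Yb T N b) => vw k.factorial ξ) (mu k m i) (x i)) t).val ≤ K' * b

/-- Module Ptp (from the lattice to numbers; compare QL/Aw/PtV.lean). Uses: nothing. Proof. (1) Induction on i: ((e + i • d) t).val = (e t).val + i (d t).val, since ((e + i • d) t).val + (d t).val ≤ .. + K' < N (ZMod.val_add_of_lt) for i < k. So q t ^ (..) = q t ^ (e t).val (q t ^ (d t).val)^i; product over t. (2) d ≠ 0: some
(d t).val ≥ 1 and q t ≥ 2, all factors are ≥ 1. (3) log (mltv q d) = ∑_t (d t).val log (q t). -/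
def PtpStmt : Prop :=
  ∀ (T N k K' : ℕ) [NeZero N] (q : Fin T → ℕ), (∀ j, (q j).Prime) → K' < N →
    ∀ e d : Fin T → ZMod N, (∀ t, (d t).val ≤ K') →
    (∀ i : ℕ, i < k → ∀ t, ((e + i • d) t).val + K' < N) →
    (∀ i : ℕ, i < k → mltv q (e + i • d) = mltv q e * (mltv q d) ^ i) ∧
    (d ≠ 0 → 2 ≤ mltv q d) ∧
    ∀ Q : ℕ, (∀ j, q j ≤ Q) → Real.log (mltv q d) ≤ (∑ t, (d t).val : ℕ) * Real.log Q

/-- Module Bsp (main step; compare QL/Aw/Bsv.lean). Uses: RelPStmt, Msp, Grp, MlVStmt, BoxStmt, Yc, Vwc, Nwc, Gdp, GP.Asm.SelStmt, Scp, Dnp, MjVStmt, Dgp, Dvp, Ptp. Proof. Given k, B, δ, ε; WLOG B ≥ 0 (a larger B is stronger as log X ≥ 1; use max B 0). ε' = ε/3. J = 2 (k 2^k) + 2 2^(k+k); (κ, B0) from Msp; δ' from Dnp for (κ,δ);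
(c, η, n0, M) from RelP for (k,δ'); E = k (n0+1) (k M k!); A ≥ 1 natural with B0 ≤ A ε' and k + B + 3 ≤ A ε'; nS = 2^(2^(k+k)) + n0 2^(k 2^k); θ = min (1/6) (η^2 δ'^2/(4 nS)); w1 from Msp for θ. X large; data from Scp for (A, E, w1, ε'); N prime gives NeZero N. ρ = 1/s^b. By Yc card Yb ≥ s^b (≥ 1), N^T ≥ s^b
(N > 2 E T ≥ s, T ≥ b). k! < N (Grp with K0 = k! + 2 ≤ T). MeanP by Msp. Bm = univ.image (mltv q). m ∈ Bm: 1 ≤ m; log (V m) ≤ log V + T N log w ≤ L^(2+3ε') = L^(2+ε); (1/4) X/log X ≤ (1/4)(V/φ(V)) X/log X ≤ the number of primes. Given P: Dnp: 2 δ' ≤ eb (av fbv), fbv with the boundary distance E. Sel, first part (F = av fbv,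
V = av nuv by MjV, Nwc): at least (δ'^2/2) X of the b' have av fbv ≥ δ'. Gdp: at most nS θ X/η^2 ≤ (δ'^2/4) X of the b' violate NLG or WLE. So at least (δ'^2/4) X of the b' are good. For a good b': RelP with Y = Yb T N b, ν = nuv, f = fbv (MjV): m < n0 with c ≤ av_e av_x ∏ f. Dgp with F = log X, R = ⌈(log X)^B⌉₊ + 1 ≤ 4 (log X)^B, the
law condition by Vwc (ρ' = 1/card Yb ≤ ρ): F^k R ρ ≤ 4 (log X)^(k+B) / s^b ≤ 4 (log X)^(k+B+1) η1 .. < c by Grp with B replaced by k + B, η replaced by c/8. So there is e and more than R differences d with fbv ≠ 0 at e + i • d, i < k; at least R of them are ≠ 0. For each of them: the coordinates of e + i • d satisfy val + E < N, V b' mltv + 1 is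
prime, P holds; Dvp (K' = E ≥ k (m+1) (k M k!)): (d t).val ≤ E, ∑ ≤ E b; Ptp: r = mltv q d ≥ 2, mltv q (e + i • d) = m1 r^i, m1 = mltv q e ∈ Bm, log r ≤ E b log w ≤ E 4 A (1+ε') L, so r ≤ (log X)^C with C = 4 A E (1+ε'). Different d give different r (MlV). So rts P k C X (V b' m1) (finite) has at least R ≥ (log X)^B elements. -/
def BspStmt : Prop := MainPStmt

open Classical in
/-- Module Fip (almost all primes). Uses: MainPStmt. Proof. MainP for max k 3 and (B, δ, ε): c, C, X0. P n = (ncard of rts True k C X n < (log X)^B) (X fixed). Suppose that for all m ∈ Bm the number of the b with V b m + 1 prime and P (V b m) is ≥ δ times the number of the b with V b m + 1 prime. Then there are (X large, c X > 0) b ≤ X, m ∈ Bm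
with (log X)^B ≤ ncard of rts P (max k 3) C X (V b m). This set is contained in rts True k C X (V b m) (finite), so (log X)^B ≤ ncard of the latter; the set is nonempty because (log X)^B > 0, and i = 0 for one of its elements gives P (V b m): contradiction. So for some m ∈ Bm (Q = V m; V * b * m = Q * b) the number is < δ times the
number of primes. -/
def FipStmt : Prop := FibPStmt

end Pool.Agent.Lib.MP_9f2731_nt.PL.Ap
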