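import Pool.Agent.Lib.MP_9f2731_nt.PL.Ap.Spec
import Pool.Agent.Lib.MP_9f2731_nt.GP.Rel.Upd

/-!
MP_9f2731_nt, PL/Ap/Vwc: values of wide elements (helper66, after helper9's docstring).
-/

namespace Pool.Agent.Lib.MP_9f2731_nt.PL.Ap

open Finset
open Pool.Agent.Lib.MP_9f2731_nt.GP Pool.Agent.Lib.MP_9f2731_nt.GP.Rel
open Pool.Agent.Lib.MP_9f2731_nt.QL Pool.Agent.Lib.MP_9f2731_nt.QL.Aw
open Pool.Agent.Lib.MP_9f2731_nt.PL
open Pool.Agent.Lib.MP_9f2731_nt.GP.Asm (eb)

theorem pVwc : VwcStmt := by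
  intro k M D G _ _ Y hk hM hY hD g
  have hYc : (0 : ℝ) < Y.card := by exact_mod_cast hY.card_pos
  have hYF : (Fintype.card Y : ℝ) = Y.card := by rw [Fintype.card_coe]
  have : Nonempty Y := hY.to_subtype
  obtain ⟨p0, hp0⟩ : ∃ p0 : Fin k × Fin M, p0 = (⟨0, hk⟩, ⟨0, hM⟩) := ⟨_, rfl⟩
  have hval : ∀ (ξ : Wd k M Y) (u : Y), vw D (Function.update ξ p0 u) =
      D • (u : G) + ∑ p ∈ univ.erase p0, (D / ((p.1 : ℕ) + 1)) • ((ξ p : Y) : G) := by
    intro ξ u
    unfold vw
    rw [← Finset.add_sum_erase univ _ (Finset.mem_univ p0)]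
    congr 1
    · rw [Function.update_self, hp0]
      simp
    · refine Finset.sum_congr rfl fun p hp => ?_
      rw [Function.update_of_ne (Finset.ne_of_mem_erase hp)]
  have key : ∀ ξ : Wd k M Y,
      av (fun u : Y => if vw D (Function.update ξ p0 u) = g then (1 : ℝ) else 0) ≤ 1 / Y.card := by
    intro ξ
    unfold av
    rw [hYF]
    refine div_le_div_of_nonneg_right ?_ hYc.le
    rw [Finset.sum_boole]
    have h1 : (univ.filter fun u : Y => vw D (Function.update ξ p0 u) = g).card ≤ 1 := by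
      rw [Finset.card_le_one]
      intro u hu v hv
      rw [Finset.mem_filter] at hu hv
      have h2 := hu.2.trans hv.2.symm
      rw [hval, hval] at h2
      exact Subtype.ext (hD (add_right_cancel h2))
    exact_mod_cast h1
  have h1 := pUpd (ι := Fin k × Fin M) (V := Y) p0 (fun ξ : Wd k M Y => if vw D ξ = g then (1 : ℝ) else 0)
  have h2 : av (fun ξ : Wd k M Y => if vw D ξ = g then (1 : ℝ) else 0) =
      av (fun ξ : Wd k M Y => av (fun u : Y =>
        if vw D (Function.update ξ p0 u) = g then (1 : ℝ) else 0)) := by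
    first
      | exact h1
      | exact h1.symm
  rw [h2]
  unfold av
  have hc : (0 : ℝ) < Fintype.card (Wd k M Y) := by
    have := Fintype.card_pos (α := Wd k M Y)
    exact_mod_cast this
  rw [div_le_iff₀ hc]
  calc _ ≤ ∑ _ξ : Wd k M Y, (1 : ℝ) / Y.card := Finset.sum_le_sum fun ξ _ => key ξ
    _ = 1 / Y.card * Fintype.card (Wd k M Y) := by
      rw [Finset.sum_const, Finset.card_univ, nsmul_eq_mul, mul_comm]

end Pool.Agent.Lib.MP_9f2731_nt.PL.Ap
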